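import Mathlib

/-! Kernel-checked finite computations on short connected permutations, given as lists. -/

namespace Pool.Agent.Work.MP_65ae80_co

/-- delete the entry at position `p` and standardise -/
def delL (l : List ℕ) (p : ℕ) : List ℕ :=
  (l.eraseIdx p).map (fun v => cond (Nat.blt (l.getD p 0) v) (v - 1) v)

/-- connectedness test: `i` entries read so far, `m` is one more than their maximum -/
def connAux : List ℕ → ℕ → ℕ → Bool
  | [], _, _ => true
  | v :: l, i, m => cond (Nat.blt i m) (connAux l (i + 1) (cond (Nat.blt m (v + 1)) (v + 1) m)) false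

def connL (l : List ℕ) : Bool := connAux l 0 1

def eqL : List ℕ → List ℕ → Bool
  | [], [] => true
  | a :: l, b :: m => cond (Nat.beq a b) (eqL l m) false
  | _, _ => false

/-- does the list contain the pattern given by the comparison function `r` -/
def hasL (r : ℕ → ℕ → ℕ → Bool) (l : List ℕ) : Bool :=
  (List.range l.length).any fun c => (List.range c).any fun b => (List.range b).any fun a =>
    r (l.getD a 0) (l.getD b 0) (l.getD c 0)

def r231 (x y z : ℕ) : Bool := cond (Nat.blt z x) (Nat.blt x y) false
def r312 (x y z : ℕ) : Bool := cond (Nat.blt y z) (Nat.blt z x) false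
def r321 (x y z : ℕ) : Bool := cond (Nat.blt z y) (Nat.blt y x) false

/-- all sequences of `k` distinct numbers below `n` -/
def seqs (n : ℕ) : ℕ → List (List ℕ)
  | 0 => [[]]
  | k + 1 => (seqs n k).flatMap fun l =>
      ((List.range n).filter fun v => !(l.any fun x => Nat.beq x v)).map fun v => v :: l

def kids (l : List ℕ) : List (List ℕ) :=
  ((List.range l.length).map (delL l)).filter connL

def chk1 (l : List ℕ) : Bool :=
  match kids l with
  | [] => false
  | c :: rest => rest.any (fun d => !(eqL d c)) ||
      !(hasL r231 c && (hasL r312 c && hasL r321 c))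

def chkQ (cl : List (List ℕ)) : Bool :=
  Nat.ble cl.length 1 || (Nat.ble cl.length 3 &&
    (cl.all (fun l => !(hasL r231 l)) || (cl.all (fun l => !(hasL r312 l)) ||
      cl.all (fun l => !(hasL r321 l)))))

def cl5 (q1 q2 : List ℕ) : List (List ℕ) :=
  ((seqs 5 5).filter connL).filter fun l => (kids l).all fun c => eqL c q1 || eqL c q2

/-! ### fast versions for the kernel -/

/-- all elements of the list satisfy `P` -/
def allR (l : List ℕ) (P : ℕ → Bool) : Bool :=
  @List.rec ℕ (fun _ => Bool) true (fun v _ ih => @Bool.rec (fun _ => Bool) false ih (P v)) l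

/-- remove the first occurrence of `v` -/
def rmR (v : ℕ) (l : List ℕ) : List ℕ :=
  @List.rec ℕ (fun _ => List ℕ) []
    (fun x t ih => @Bool.rec (fun _ => List ℕ) (x :: ih) t (Nat.beq x v)) l

/-- test `P` for all sequences of `k` distinct elements of `av`, followed by `acc` -/
def dfsR (P : List ℕ → Bool) (k : ℕ) : List ℕ → List ℕ → Bool :=
  @Nat.rec (fun _ => List ℕ → List ℕ → Bool) (fun _ acc => P acc)
    (fun _ ih av acc => allR av (fun v => ih (rmR v av) (v :: acc))) k

/-- connectedness of the list of the numbers `v - 1` for `x ≤ v` and `v` otherwise -/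
def cxR (x : ℕ) (l : List ℕ) : ℕ → ℕ → Bool :=
  @List.rec ℕ (fun _ => ℕ → ℕ → Bool) (fun _ _ => true)
    (fun v _ ih i m => @Bool.rec (fun _ => Bool) false
      (@Bool.rec (fun _ => Bool)
        (ih (i + 1) (@Bool.rec (fun _ => ℕ) m (v + 1) (Nat.ble m v)))
        (ih (i + 1) (@Bool.rec (fun _ => ℕ) m v (Nat.ble m v))) (Nat.ble x v)) (Nat.ble (i + 1) m)) l

def oR (a b : Bool) : Bool := @Bool.rec (fun _ => Bool) b true a
def aR (a b : Bool) : Bool := @Bool.rec (fun _ => Bool) false b a

/-- the two lists, with the numbers above `x` respectively `y` decreased, are different -/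
def neR (x y : ℕ) (l : List ℕ) : List ℕ → Bool :=
  @List.rec ℕ (fun _ => List ℕ → Bool) (fun _ => false)
    (fun v _ ih l' => @List.rec ℕ (fun _ => Bool) false
      (fun w t _ => @Bool.rec (fun _ => Bool) true (ih t)
        (Nat.beq (@Bool.rec (fun _ => ℕ) (v + 1) v (Nat.ble x v))
          (@Bool.rec (fun _ => ℕ) (w + 1) w (Nat.ble y w)))) l') l

/-- two different connected lists -/
def prR (x y : ℕ) (l l' : List ℕ) : Bool :=
  aR (cxR x l 0 1) (aR (cxR y l' 0 1) (neR x y l l'))

def unc (f : ℕ → List ℕ → Bool) (l : List ℕ) : Bool :=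
  @List.rec ℕ (fun _ => Bool) true (fun a t _ => f a t) l

def leaf7 (l : List ℕ) : Bool :=
  unc (fun a t => unc (fun b t => unc (fun c t => unc (fun d t => unc (fun e t => unc (fun f t =>
   unc (fun g _ =>
    oR (prR (b + 1) (f + 1) [a, c, d, e, f, g] [a, b, c, d, e, g])
      (oR (prR (d + 1) (g + 1) [a, b, c, e, f, g] [a, b, c, d, e, f])
      (oR (!(connL l)) (oR (prR (a + 1) (e + 1) [b, c, d, e, f, g] [a, b, c, d, f, g])
      (oR (prR (b + 1) (g + 1) [a, c, d, e, f, g] [a, b, c, d, e, f])
      (oR (prR (a + 1) (f + 1) [b, c, d, e, f, g] [a, b, c, d, e, g])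
      (oR (prR (a + 1) (c + 1) [b, c, d, e, f, g] [a, b, d, e, f, g]) (chk1 l))))))))
    t) t) t) t) t) t) l

def leaf6 (l : List ℕ) : Bool :=
  unc (fun a t => unc (fun b t => unc (fun c t => unc (fun d t => unc (fun e t => unc (fun f _ =>
    oR (prR (b + 1) (e + 1) [a, c, d, e, f] [a, b, c, d, f])
      (oR (prR (a + 1) (f + 1) [b, c, d, e, f] [a, b, c, d, e])
      (oR (!(connL l)) (chk1 l)))) t) t) t) t) t) l

lemma oR_eq (a b : Bool) : oR a b = (a || b) := by cases a <;> rfl
lemma aR_eq (a b : Bool) : aR a b = (a && b) := by cases a <;> rfl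

lemma allR_eq (l : List ℕ) (P : ℕ → Bool) (h : allR l P = true) : ∀ v ∈ l, P v = true := by
  induction l with
  | nil => simp
  | cons v l ih =>
    have e : allR (v :: l) P = @Bool.rec (fun _ => Bool) false (allR l P) (P v) := rfl
    rw [e] at h
    cases hv : P v with
    | false => rw [hv] at h; exact absurd h (by simp)
    | true =>
      rw [hv] at h
      intro w hw
      rcases List.mem_cons.1 hw with h1 | h1
      · rw [h1, hv]
      · exact ih h w h1

lemma mem_rmR {u v : ℕ} (huv : u ≠ v) (l : List ℕ) (h : u ∈ l) : u ∈ rmR v l := by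
  induction l with
  | nil => exact h
  | cons x l ih =>
    have e : rmR v (x :: l) = @Bool.rec (fun _ => List ℕ) (x :: rmR v l) l (Nat.beq x v) := rfl
    rw [e]
    cases hx : Nat.beq x v with
    | false =>
      rcases List.mem_cons.1 h with h1 | h1
      · exact List.mem_cons.2 (Or.inl h1)
      · exact List.mem_cons.2 (Or.inr (ih h1))
    | true =>
      rcases List.mem_cons.1 h with h1 | h1
      · exact absurd (h1.trans (Nat.eq_of_beq_eq_true hx)) huv
      · exact h1

lemma dfsR_spec (P : List ℕ → Bool) (k : ℕ) : ∀ (av acc : List ℕ), dfsR P k av acc = true →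
    ∀ w : List ℕ, w.length = k → w.Nodup → (∀ v ∈ w, v ∈ av) → P (w ++ acc) = true := by
  induction k with
  | zero =>
    intro av acc h w hw _ _
    rw [List.length_eq_zero_iff.1 hw]
    exact h
  | succ k ih =>
    intro av acc h w hw hnd hav
    rcases List.eq_nil_or_concat w with h0 | ⟨w', v, h0⟩
    · rw [h0] at hw; simp at hw
    · rw [List.concat_eq_append] at h0
      rw [h0] at hw hnd hav
      have h1 := allR_eq av _ h v (hav v (by simp))
      have h2 := ih _ _ h1 w' (by simpa using hw) (List.Nodup.of_append_left hnd) (by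
        intro u hu
        refine mem_rmR ?_ _ (hav u (by simp [hu]))
        rintro rfl
        rw [List.nodup_append] at hnd
        exact hnd.2.2 u hu u (by simp) rfl)
      rw [h0, List.append_assoc]
      exact h2

lemma seqs_spec (n : ℕ) : ∀ (k : ℕ) (l : List ℕ), l ∈ seqs n k →
    l.length = k ∧ l.Nodup ∧ ∀ v ∈ l, v ∈ List.range n := by
  intro k
  induction k with
  | zero =>
    intro l hl
    simp only [seqs, List.mem_singleton] at hl
    subst hl
    simp
  | succ k ih =>
    intro l hl
    rw [seqs, List.mem_flatMap] at hl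
    obtain ⟨l', hl', hl⟩ := hl
    rw [List.mem_map] at hl
    obtain ⟨v, hv, rfl⟩ := hl
    rw [List.mem_filter] at hv
    obtain ⟨h1, h2, h3⟩ := ih l' hl'
    refine ⟨by rw [List.length_cons, h1], List.nodup_cons.2 ⟨?_, h2⟩, ?_⟩
    · intro hmem
      have h4 := hv.2
      rw [Bool.not_eq_true', List.any_eq_false] at h4
      exact h4 v hmem (Nat.beq_refl v)
    · intro u hu
      rcases List.mem_cons.1 hu with h5 | h5
      · rw [h5]; exact hv.1
      · exact h3 u h5

/-- the value of the deletion -/
def adj (x v : ℕ) : ℕ := cond (Nat.blt x v) (v - 1) v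

lemma adj_succ (x v : ℕ) : adj x v + 1 = @Bool.rec (fun _ => ℕ) (v + 1) v (Nat.ble (x + 1) v) := by
  unfold adj Nat.blt
  cases h : Nat.ble (x + 1) v with
  | false => rfl
  | true =>
    have := Nat.le_of_ble_eq_true h
    show v - 1 + 1 = v
    omega

lemma cxR_eq (x : ℕ) (l : List ℕ) : ∀ i m, cxR (x + 1) l i m = connAux (l.map (adj x)) i m := by
  induction l with
  | nil => intro i m; rfl
  | cons v l ih =>
    intro i m
    have e : cxR (x + 1) (v :: l) i m = @Bool.rec (fun _ => Bool) false
      (@Bool.rec (fun _ => Bool)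
        (cxR (x + 1) l (i + 1) (@Bool.rec (fun _ => ℕ) m (v + 1) (Nat.ble m v)))
        (cxR (x + 1) l (i + 1) (@Bool.rec (fun _ => ℕ) m v (Nat.ble m v)))
        (Nat.ble (x + 1) v)) (Nat.ble (i + 1) m) := rfl
    rw [e, List.map_cons, connAux, adj_succ, ih, ih]
    unfold Nat.blt
    cases h0 : Nat.ble (i + 1) m with
    | false => rfl
    | true =>
      cases h1 : Nat.ble (x + 1) v with
      | false =>
        show connAux _ _ _ = connAux _ _ _
        congr 1
        cases h2 : Nat.ble m v with
        | false =>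
          have : Nat.ble (m + 1) (v + 1) = false := by
            rw [← Bool.not_eq_true, Nat.ble_eq] at h2 ⊢
            omega
          show m = cond (Nat.ble (m + 1) (v + 1)) (v + 1) m
          rw [this]; rfl
        | true =>
          have : Nat.ble (m + 1) (v + 1) = true := by
            rw [Nat.ble_eq] at h2 ⊢
            omega
          show v + 1 = cond (Nat.ble (m + 1) (v + 1)) (v + 1) m
          rw [this]; rfl
      | true =>
        show connAux _ _ _ = connAux _ _ _
        congr 1
        cases h2 : Nat.ble m v with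
        | false =>
          have : Nat.ble (m + 1) v = false := by
            rw [← Bool.not_eq_true, Nat.ble_eq] at h2 ⊢
            omega
          show m = cond (Nat.ble (m + 1) v) v m
          rw [this]; rfl
        | true =>
          show v = cond (Nat.ble (m + 1) v) v m
          cases h3 : Nat.ble (m + 1) v with
          | false =>
            rw [← Bool.not_eq_true, Nat.ble_eq] at h3
            rw [Nat.ble_eq] at h2
            show v = m
            omega
          | true => rfl

lemma neR_spec (x y : ℕ) (l : List ℕ) : ∀ l' : List ℕ, neR (x + 1) (y + 1) l l' = true →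
    l.map (adj x) ≠ l'.map (adj y) := by
  induction l with
  | nil => intro l' h; exact absurd h (by simp [neR])
  | cons v l ih =>
    intro l' h
    cases l' with
    | nil => simp
    | cons w t =>
      have e : neR (x + 1) (y + 1) (v :: l) (w :: t) = @Bool.rec (fun _ => Bool) true
        (neR (x + 1) (y + 1) l t) (Nat.beq (@Bool.rec (fun _ => ℕ) (v + 1) v (Nat.ble (x + 1) v))
          (@Bool.rec (fun _ => ℕ) (w + 1) w (Nat.ble (y + 1) w))) := rfl
      rw [e, ← adj_succ, ← adj_succ] at h
      intro he
      rw [List.map_cons, List.map_cons, List.cons.injEq] at he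
      rw [he.1, Nat.beq_refl] at h
      exact ih t h he.2

lemma two_kids {l c d : List ℕ} (hc : c ∈ kids l) (hd : d ∈ kids l) (hcd : c ≠ d) :
    chk1 l = true := by
  have heq : ∀ a b : List ℕ, eqL a b = true → a = b := by
    intro a
    induction a with
    | nil => intro b h; cases b with
      | nil => rfl
      | cons => simp [eqL] at h
    | cons u a ih => intro b h; cases b with
      | nil => simp [eqL] at h
      | cons w b =>
        unfold eqL at h
        cases h1 : Nat.beq u w with
        | false => rw [h1] at h; simp at h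
        | true =>
          rw [h1] at h
          rw [Nat.eq_of_beq_eq_true h1, ih b h]
  unfold chk1
  cases hk : kids l with
  | nil => rw [hk] at hc; simp at hc
  | cons a rest =>
    rw [hk] at hc hd
    show (rest.any (fun d => !(eqL d a)) || _) = true
    cases ha : rest.any (fun d => !(eqL d a)) with
    | true => rfl
    | false =>
      exfalso
      rw [List.any_eq_false] at ha
      have hall : ∀ b ∈ a :: rest, b = a := by
        intro b hb
        rcases List.mem_cons.1 hb with h1 | h1
        · exact h1
        · have := ha b h1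
          rw [Bool.not_eq_true, Bool.not_eq_false'] at this
          exact heq _ _ this
      exact hcd ((hall c hc).trans (hall d hd).symm)

lemma prR_spec (p q : ℕ) {l l1 l2 : List ℕ} {x y : ℕ} (hp : p < l.length) (hq : q < l.length)
    (hx : l.getD p 0 = x) (hy : l.getD q 0 = y) (h1 : l.eraseIdx p = l1) (h2 : l.eraseIdx q = l2)
    (h : prR (x + 1) (y + 1) l1 l2 = true) : chk1 l = true := by
  unfold prR at h
  rw [aR_eq, aR_eq, Bool.and_eq_true, Bool.and_eq_true, cxR_eq, cxR_eq] at h
  obtain ⟨a1, a2, a3⟩ := h
  have e1 : delL l p = l1.map (adj x) := by rw [← h1, ← hx]; rfl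
  have e2 : delL l q = l2.map (adj y) := by rw [← h2, ← hy]; rfl
  refine two_kids (c := l1.map (adj x)) (d := l2.map (adj y)) ?_ ?_ (neR_spec x y l1 l2 a3)
  · rw [kids, List.mem_filter, List.mem_map]
    exact ⟨⟨p, List.mem_range.2 hp, e1⟩, a1⟩
  · rw [kids, List.mem_filter, List.mem_map]
    exact ⟨⟨q, List.mem_range.2 hq, e2⟩, a2⟩

lemma leaf7_spec (l : List ℕ) (hl : l.length = 7) (h : leaf7 l = true) :
    (!(connL l) || chk1 l) = true := by
  match l, hl with
  | [a, b, c, d, e, f, g], _ =>
    have h' : oR (prR (b + 1) (f + 1) [a, c, d, e, f, g] [a, b, c, d, e, g])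
      (oR (prR (d + 1) (g + 1) [a, b, c, e, f, g] [a, b, c, d, e, f])
      (oR (!(connL [a, b, c, d, e, f, g])) (oR (prR (a + 1) (e + 1) [b, c, d, e, f, g] [a, b, c, d, f, g])
      (oR (prR (b + 1) (g + 1) [a, c, d, e, f, g] [a, b, c, d, e, f])
      (oR (prR (a + 1) (f + 1) [b, c, d, e, f, g] [a, b, c, d, e, g])
      (oR (prR (a + 1) (c + 1) [b, c, d, e, f, g] [a, b, d, e, f, g])
        (chk1 [a, b, c, d, e, f, g]))))))) = true := h
    simp only [oR_eq, Bool.or_eq_true] at h'
    rw [Bool.or_eq_true]
    rcases h' with h | h | h | h | h | h | h | h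
    · exact Or.inr (prR_spec 1 5 (by simp) (by simp) rfl rfl rfl rfl h)
    · exact Or.inr (prR_spec 3 6 (by simp) (by simp) rfl rfl rfl rfl h)
    · exact Or.inl h
    · exact Or.inr (prR_spec 0 4 (by simp) (by simp) rfl rfl rfl rfl h)
    · exact Or.inr (prR_spec 1 6 (by simp) (by simp) rfl rfl rfl rfl h)
    · exact Or.inr (prR_spec 0 5 (by simp) (by simp) rfl rfl rfl rfl h)
    · exact Or.inr (prR_spec 0 2 (by simp) (by simp) rfl rfl rfl rfl h)
    · exact Or.inr h

lemma leaf6_spec (l : List ℕ) (hl : l.length = 6) (h : leaf6 l = true) :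
    (!(connL l) || chk1 l) = true := by
  match l, hl with
  | [a, b, c, d, e, f], _ =>
    have h' : oR (prR (b + 1) (e + 1) [a, c, d, e, f] [a, b, c, d, f])
      (oR (prR (a + 1) (f + 1) [b, c, d, e, f] [a, b, c, d, e])
      (oR (!(connL [a, b, c, d, e, f])) (chk1 [a, b, c, d, e, f]))) = true := h
    simp only [oR_eq, Bool.or_eq_true] at h'
    rw [Bool.or_eq_true]
    rcases h' with h | h | h | h
    · exact Or.inr (prR_spec 1 4 (by simp) (by simp) rfl rfl rfl rfl h)
    · exact Or.inr (prR_spec 0 5 (by simp) (by simp) rfl rfl rfl rfl h)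
    · exact Or.inl h
    · exact Or.inr h

lemma fast6 : dfsR leaf6 6 [0, 1, 2, 3, 4, 5] [] = true := by decide +kernel

lemma fast7 : dfsR leaf7 7 [0, 1, 2, 3, 4, 5, 6] [] = true := by decide +kernel

theorem check6 : ((seqs 6 6).all fun l => !(connL l) || chk1 l) = true := by
  rw [List.all_eq_true]
  intro l hl
  obtain ⟨h1, h2, h3⟩ := seqs_spec 6 6 l hl
  have := dfsR_spec leaf6 6 _ _ fast6 l h1 h2 h3
  rw [List.append_nil] at this
  exact leaf6_spec l h1 this

theorem check7 : ((seqs 7 7).all fun l => !(connL l) || chk1 l) = true := by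
  rw [List.all_eq_true]
  intro l hl
  obtain ⟨h1, h2, h3⟩ := seqs_spec 7 7 l hl
  have := dfsR_spec leaf7 7 _ _ fast7 l h1 h2 h3
  rw [List.append_nil] at this
  exact leaf7_spec l h1 this

theorem check45 : (((seqs 4 4).filter connL).all fun q1 => ((seqs 4 4).filter connL).all fun q2 =>
    chkQ (cl5 q1 q2)) = true := by decide +kernel

end Pool.Agent.Work.MP_65ae80_co
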