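import Mathlib

/-! Definitions for the problem `MP_65ae80_co`: permutation classes, direct sums,
indecomposable permutations. -/

namespace Pool.Agent.Work.MP_65ae80_co

open Equiv

/-- `Contains π σ`: the permutation `π` (of length `n`) contains `σ` (of length `k`), i.e. some
subsequence of `π` (at positions `e 0 < e 1 < …`) is order-isomorphic to `σ`. -/
def Contains {n k : ℕ} (π : Perm (Fin n)) (σ : Perm (Fin k)) : Prop :=
  ∃ e : Fin k → Fin n, StrictMono e ∧ ∀ i j, σ i < σ j ↔ π (e i) < π (e j)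

/-- `C`, given by the sets `C n` of its members of length `n`, is a permutation class:
it is closed downward under containment. -/
def IsClass (C : ∀ n : ℕ, Set (Perm (Fin n))) : Prop :=
  ∀ (n k : ℕ) (π : Perm (Fin n)) (σ : Perm (Fin k)), π ∈ C n → Contains π σ → σ ∈ C k

/-- The direct sum `α ⊕ β`: it agrees with `α` on the first `a` positions and has the values
`β i + a` at the positions `a + i`. -/
def dsum {a b : ℕ} (α : Perm (Fin a)) (β : Perm (Fin b)) : Perm (Fin (a + b)) :=
  (finSumFinEquiv.symm.trans (Equiv.sumCongr α β)).trans finSumFinEquiv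

/-- `C` is sum closed. -/
def SumClosed (C : ∀ n : ℕ, Set (Perm (Fin n))) : Prop :=
  ∀ (a b : ℕ) (α : Perm (Fin a)) (β : Perm (Fin b)), α ∈ C a → β ∈ C b → dsum α β ∈ C (a + b)

/-- `π` is indecomposable: it is not of the form `α ⊕ β` with `α`, `β` both nonempty. -/
def Indecomposable {n : ℕ} (π : Perm (Fin n)) : Prop :=
  ¬ ∃ (a b : ℕ) (α : Perm (Fin a)) (β : Perm (Fin b)),
      0 < a ∧ 0 < b ∧ (⟨n, π⟩ : Σ m : ℕ, Perm (Fin m)) = ⟨a + b, dsum α β⟩

/-- `ind C n`: the indecomposable permutations of length `n` in `C`. -/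
def ind (C : ∀ n : ℕ, Set (Perm (Fin n))) (n : ℕ) : Set (Perm (Fin n)) :=
  {π | π ∈ C n ∧ Indecomposable π}

end Pool.Agent.Work.MP_65ae80_co
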