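import Mathlib

/-! Factor-closed languages of binary words: if some level `N ≥ 1` has at most `N` words
then the number of words of each length is bounded. -/

namespace Pool.Agent.Work.MP_65ae80_co

open Finset

/-- distinct values are counted by first occurrences -/
lemma card_image_range_eq {β : Type*} [DecidableEq β] (g : ℕ → β) (m : ℕ) :
    ((range m).image g).card
      = ((range m).filter (fun s => ∀ u < s, g u ≠ g s)).card := by
  classical
  have himg : (((range m).filter (fun s => ∀ u < s, g u ≠ g s)).image g)
      = (range m).image g := by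
    apply Finset.Subset.antisymm
    · exact Finset.image_subset_image (Finset.filter_subset _ _)
    · intro b hb
      rw [Finset.mem_image] at hb
      obtain ⟨s, hs, rfl⟩ := hb
      have hex : ∃ t, g t = g s := ⟨s, rfl⟩
      have h1 : g (Nat.find hex) = g s := Nat.find_spec hex
      have h2 : Nat.find hex ≤ s := Nat.find_min' hex rfl
      rw [Finset.mem_image]
      refine ⟨Nat.find hex, ?_, h1⟩
      rw [Finset.mem_filter]
      refine ⟨?_, ?_⟩
      · rw [Finset.mem_range] at hs ⊢
        omega
      · intro u hu h3
        exact Nat.find_min hex hu (h3.trans h1)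
  rw [← himg]
  apply Finset.card_image_of_injOn
  intro s hs t ht hst
  rw [Finset.mem_coe, Finset.mem_filter] at hs ht
  rcases lt_trichotomy s t with h | h | h
  · exact absurd hst (ht.2 s h)
  · exact h
  · exact absurd hst.symm (hs.2 t h)

/-- the factor of length `k` starting at `i` -/
def fac (w : ℕ → Bool) (k i : ℕ) : Fin k → Bool := fun t => w (i + t)

lemma fac_left {w : ℕ → Bool} {k i j : ℕ} (h : fac w (k + 1) i = fac w (k + 1) j) :
    fac w k i = fac w k j := by
  funext t
  have := congrFun h t.castSucc
  simpa [fac] using this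

lemma fac_right {w : ℕ → Bool} {k i j : ℕ} (h : fac w (k + 1) i = fac w (k + 1) j) :
    fac w k (i + 1) = fac w k (j + 1) := by
  funext t
  have := congrFun h t.succ
  simp only [fac, Fin.val_succ] at this ⊢
  have e1 : i + 1 + (t : ℕ) = i + ((t : ℕ) + 1) := by ring
  have e2 : j + 1 + (t : ℕ) = j + ((t : ℕ) + 1) := by ring
  rw [e1, e2]
  exact this

lemma key (w : ℕ → Bool) (k M : ℕ)
    (hE : ((range M).image (fac w (k + 1))).card ≤ ((range (M + 1)).image (fac w k)).card)
    (hM : 2 ^ k ≤ M) :
    ∃ i q R, 1 ≤ q ∧ i + q ≤ 2 ^ k ∧ i + q ≤ R ∧ R ≤ M ∧ M ≤ R + 2 ^ k ∧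
      ∀ s, i + q ≤ s → s ≤ R → fac w k s = fac w k (s - q) := by
  classical
  set f := fac w k with hf
  set e := fac w (k + 1) with he
  set A := (range M).filter (fun s => ∀ u < s + 1, f u ≠ f (s + 1)) with hA
  set B := (range M).filter (fun s => ∀ u < s, e u ≠ e s) with hB
  have hV : ((range (M + 1)).image f).card = A.card + 1 := by
    rw [card_image_range_eq, Finset.card_filter, Finset.sum_range_succ', hA, Finset.card_filter]
    congr 1
  have hEc : ((range M).image e).card = B.card := card_image_range_eq e M
  have hAB : A ⊆ B := by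
    intro s hs
    rw [hA, Finset.mem_filter] at hs
    rw [hB, Finset.mem_filter]
    refine ⟨hs.1, ?_⟩
    intro u hu h
    exact hs.2 (u + 1) (by omega) (fac_right h)
  have hBA : (B \ A).card ≤ 1 := by
    rw [Finset.card_sdiff_of_subset hAB]
    omega
  have huniq : ∀ s t, s < M → t < M → (∀ u < s, e u ≠ e s) → (∀ u < t, e u ≠ e t) →
      ¬ (∀ u < s + 1, f u ≠ f (s + 1)) → ¬ (∀ u < t + 1, f u ≠ f (t + 1)) → s = t := by
    intro s t hs ht h1 h2 h3 h4
    rw [Finset.card_le_one] at hBA
    apply hBA
    · rw [Finset.mem_sdiff, hA, hB, Finset.mem_filter, Finset.mem_filter]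
      exact ⟨⟨Finset.mem_range.2 hs, h1⟩, fun h => h3 h.2⟩
    · rw [Finset.mem_sdiff, hA, hB, Finset.mem_filter, Finset.mem_filter]
      exact ⟨⟨Finset.mem_range.2 ht, h2⟩, fun h => h4 h.2⟩
  -- first repeat
  have hrep : ∃ j, ∃ u < j, f u = f j := by
    by_contra hcon
    push Not at hcon
    have hinj : Set.InjOn f (range (2 ^ k + 1) : Finset ℕ) := by
      intro s _ t _ hst
      rcases lt_trichotomy s t with h | h | h
      · exact absurd hst (hcon t s h)
      · exact h
      · exact absurd hst.symm (hcon s t h)
    have hc := Finset.card_image_of_injOn hinj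
    have hle := Finset.card_le_univ ((range (2 ^ k + 1)).image f)
    rw [hc] at hle
    simp at hle
  have hjle : Nat.find hrep ≤ 2 ^ k := by
    by_contra hcon
    push Not at hcon
    have hinj : Set.InjOn f (range (2 ^ k + 1) : Finset ℕ) := by
      intro s hs t ht hst
      simp only [Finset.coe_range, Set.mem_Iio] at hs ht
      rcases lt_trichotomy s t with h | h | h
      · exact absurd ⟨s, h, hst⟩ (Nat.find_min hrep (m := t) (by omega))
      · exact h
      · exact absurd ⟨t, h, hst.symm⟩ (Nat.find_min hrep (m := s) (by omega))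
    have hc := Finset.card_image_of_injOn hinj
    have hle := Finset.card_le_univ ((range (2 ^ k + 1)).image f)
    rw [hc] at hle
    simp at hle
  set j := Nat.find hrep with hj
  obtain ⟨i, hij, hfij⟩ := Nat.find_spec hrep
  rw [← hj] at hij hfij
  have hnew : ∀ s < j, ∀ u < s, f u ≠ f s := by
    intro s hs u hu h
    exact Nat.find_min hrep hs ⟨u, hu, h⟩
  have hinj : ∀ s t, s < j → t < j → f s = f t → s = t := by
    intro s t hs ht hst
    rcases lt_trichotomy s t with h | h | h
    · exact absurd hst (hnew t ht s h)
    · exact h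
    · exact absurd hst.symm (hnew s hs t h)
  obtain ⟨q, hq⟩ : ∃ q, j = i + q := ⟨j - i, by omega⟩
  have hq1 : 1 ≤ q := by omega
  -- the extra edge
  have hex : ∀ s, s < M → (∀ u < s, e u ≠ e s) → ¬ (∀ u < s + 1, f u ≠ f (s + 1)) →
      s + 1 = j := by
    intro s hs h1 h2
    have : s = j - 1 := by
      apply huniq s (j - 1) hs (by omega) h1 _ h2
      · have e1 : j - 1 + 1 = j := by omega
        rw [e1]
        push Not
        exact ⟨i, hij, hfij⟩
      · intro u hu h
        exact hnew (j - 1) (by omega) u hu (fac_left h)
    omega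
  -- maximal periodic stretch
  set P : ℕ → Prop := fun R => ∀ s, j ≤ s → s ≤ R → f s = f (s - q) with hP
  have hPj : P j := by
    intro s h1 h2
    have : s = j := by omega
    rw [this, ← hfij]
    congr 1
    omega
  set R := Nat.findGreatest P M with hR
  have hjM : j ≤ M := by omega
  have hRj : j ≤ R := Nat.le_findGreatest hjM hPj
  have hRM : R ≤ M := Nat.findGreatest_le M
  have hPR : P R := Nat.findGreatest_spec hjM hPj
  refine ⟨i, q, R, hq1, by omega, by omega, hRM, ?_, ?_⟩
  swap
  · intro s h1 h2
    exact hPR s (by omega) h2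
  by_cases hRM' : R = M
  · omega
  have hRlt : R < M := by omega
  have hnotP : ¬ P (R + 1) := by
    exact Nat.findGreatest_is_greatest (P := P) (n := M) (k := R + 1) (by omega) (by omega)
  have hfR : f (R + 1) ≠ f (R + 1 - q) := by
    intro h
    apply hnotP
    intro s h1 h2
    rcases Nat.lt_or_ge s (R + 1) with h3 | h3
    · exact hPR s h1 (by omega)
    · have : s = R + 1 := by omega
      rw [this]
      exact h
  -- reduction modulo the period
  have hred : ∀ s, i ≤ s → s ≤ R → f s = f (i + (s - i) % q) := by
    intro s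
    induction s using Nat.strong_induction_on with
    | _ s ih =>
      intro h1 h2
      rcases Nat.lt_or_ge s j with h3 | h3
      · rw [Nat.mod_eq_of_lt (by omega)]
        congr 1
        omega
      · rw [hPR s h3 h2, ih (s - q) (by omega) (by omega) (by omega)]
        congr 2
        have e1 : s - i = (s - q - i) + q := by omega
        rw [e1, Nat.add_mod_right]
  have hredlt : ∀ s, i + (s - i) % q < j := by
    intro s
    have := Nat.mod_lt (s - i) (show 0 < q by omega)
    omega
  have hnewR : ∀ u < R + 1, f u ≠ f (R + 1) := by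
    by_contra hcon
    have hE' : ¬ (∀ u < R, e u ≠ e R) := by
      intro h
      have := hex R hRlt h hcon
      omega
    push Not at hE'
    obtain ⟨u, hu, hue⟩ := hE'
    have h1 : f u = f R := fac_left hue
    have h2 : f (u + 1) = f (R + 1) := fac_right hue
    rcases Nat.lt_or_ge u i with h3 | h3
    · rw [hred R (by omega) le_rfl] at h1
      have := hinj u _ (by omega) (hredlt R) h1
      omega
    · rw [hred R (by omega) le_rfl, hred u h3 (by omega)] at h1
      have h4 := hinj _ _ (hredlt u) (hredlt R) h1
      have h5 : (u - i) % q = (R - i) % q := by omega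
      apply hfR
      rw [← h2, hred (u + 1) (by omega) (by omega), hred (R + 1 - q) (by omega) (by omega)]
      congr 2
      have e1 : u + 1 - i = (u - i) + 1 := by omega
      have e2 : R - i + 1 = (R + 1 - q - i) + q := by omega
      have e3 : (R + 1 - q - i) % q = (R - i + 1) % q := by
        rw [e2, Nat.add_mod_right]
      rw [e1, e3, Nat.add_mod, h5, ← Nat.add_mod]
  have hnewS : ∀ d, R + 1 + d ≤ M → ∀ u < R + 1 + d, f u ≠ f (R + 1 + d) := by
    intro d
    induction d with
    | zero => intro _; exact hnewR
    | succ d ih =>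
      intro hd
      by_contra hcon
      have hE' : ∀ u < R + 1 + d, e u ≠ e (R + 1 + d) := by
        intro u hu h
        exact ih (by omega) u hu (fac_left h)
      have := hex (R + 1 + d) (by omega) hE' hcon
      omega
  have hinj2 : Set.InjOn (fun d => f (R + 1 + d)) (range (M - R) : Finset ℕ) := by
    intro s hs t ht hst
    simp only [Finset.coe_range, Set.mem_Iio] at hs ht hst
    rcases lt_trichotomy s t with h | h | h
    · exact absurd hst (hnewS t (by omega) _ (by omega))
    · exact h
    · exact absurd hst.symm (hnewS s (by omega) _ (by omega))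
  have hc := Finset.card_image_of_injOn hinj2
  have hle := Finset.card_le_univ ((range (M - R)).image (fun d => f (R + 1 + d)))
  rw [hc] at hle
  simp at hle
  omega

/-- structure of a word with few factors of length `N` -/
lemma word_structure (w : ℕ → Bool) (N m : ℕ) (hN : 1 ≤ N)
    (h : N ≤ m → ((range (m - N + 1)).image (fac w N)).card ≤ N) :
    ∃ i q r, i ≤ 2 ^ N + N ∧ 1 ≤ q ∧ q ≤ 2 ^ N + N ∧ r ≤ m ∧ m ≤ r + (2 ^ N + N) ∧
      ∀ u, i + q ≤ u → u < r → w u = w (u - q) := by
  classical
  have hp2 : 0 < 2 ^ N := by positivity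
  rcases Nat.lt_or_ge m N with hm | hm
  · exact ⟨0, 1, 0, by omega, le_rfl, by omega, by omega, by omega, fun u _ h => by omega⟩
  have hcard := h hm
  have hstep : ∃ k < N, ((range (m - (k + 1) + 1)).image (fac w (k + 1))).card
      ≤ ((range (m - k + 1)).image (fac w k)).card := by
    by_contra hcon
    push Not at hcon
    have hall : ∀ k ≤ N, k + 1 ≤ ((range (m - k + 1)).image (fac w k)).card := by
      intro k
      induction k with
      | zero =>
        intro _
        rw [Nat.succ_le_iff, Finset.card_pos]
        exact ⟨_, Finset.mem_image_of_mem _ (Finset.mem_range.2 (Nat.succ_pos _))⟩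
      | succ k ih =>
        intro hk
        have := hcon k (by omega)
        have := ih (by omega)
        omega
    have := hall N le_rfl
    omega
  obtain ⟨k, hk, hkc⟩ := hstep
  have hpow : 2 ^ k ≤ 2 ^ N := Nat.pow_le_pow_right (by norm_num) hk.le
  have e1 : m - (k + 1) + 1 = m - k := by omega
  rw [e1] at hkc
  rcases Nat.lt_or_ge (m - k) (2 ^ k) with hs | hs
  · exact ⟨0, 1, 0, by omega, le_rfl, by omega, by omega, by omega, fun u _ h => by omega⟩
  rcases Nat.eq_zero_or_pos k with hk0 | hk0
  · subst hk0
    have h1 : ((range (m - 0 + 1)).image (fac w 0)).card ≤ 1 := by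
      rw [Finset.card_le_one]
      intro a _ b _
      exact Subsingleton.elim _ _
    have h2 : ((range (m - 0)).image (fac w (0 + 1))).card ≤ 1 := hkc.trans h1
    rw [Finset.card_le_one] at h2
    refine ⟨0, 1, m, by omega, le_rfl, by omega, le_rfl, by omega, ?_⟩
    intro u hu1 hu2
    have h3 := h2 _ (Finset.mem_image_of_mem _ (Finset.mem_range.2 (show u < m - 0 by omega)))
      _ (Finset.mem_image_of_mem _ (Finset.mem_range.2 (show u - 1 < m - 0 by omega)))
    have h4 := congrFun h3 0
    simpa [fac] using h4
  · obtain ⟨i, q, R, h1, h2, h3, h4, h5, h6⟩ := key w k (m - k) hkc hs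
    refine ⟨i, q, R + 1, by omega, h1, by omega, by omega, by omega, ?_⟩
    intro u hu1 hu2
    have h7 := congrFun (h6 u hu1 (by omega)) ⟨0, hk0⟩
    simpa [fac] using h7

/-- extension of a finite word by `false` -/
def wext {m : ℕ} (w : Fin m → Bool) : ℕ → Bool := fun u => if h : u < m then w ⟨u, h⟩ else false

lemma wext_apply {m : ℕ} (w : Fin m → Bool) (u : ℕ) (h : u < m) : wext w u = w ⟨u, h⟩ := by
  simp [wext, h]

/-- **Balogh–Bollobás**: a factor-closed language with at most `N` words of length `N ≥ 1`
is bounded. -/
theorem words_bounded (L : ∀ m, Set (Fin m → Bool))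
    (hL : ∀ m m' a (h : a + m' ≤ m) (w : Fin m → Bool), w ∈ L m →
      (fun t : Fin m' => w ⟨a + t, by omega⟩) ∈ L m')
    (N : ℕ) (hN : 1 ≤ N) (hc : (L N).ncard ≤ N) :
    ∃ K, ∀ m, (L m).ncard ≤ K := by
  classical
  set B := 2 ^ N + N with hB
  have hstr : ∀ m (w : Fin m → Bool), w ∈ L m →
      ∃ i q r, i ≤ B ∧ 1 ≤ q ∧ q ≤ B ∧ r ≤ m ∧ m ≤ r + B ∧
      ∀ u, i + q ≤ u → u < r → wext w u = wext w (u - q) := by
    intro m w hw
    apply word_structure (wext w) N m hN
    intro hm
    refine le_trans ?_ hc
    have hsub : (((range (m - N + 1)).image (fac (wext w) N) : Finset (Fin N → Bool)) :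
        Set (Fin N → Bool)) ⊆ L N := by
      intro v hv
      rw [Finset.coe_image] at hv
      obtain ⟨s, hs, rfl⟩ := hv
      simp only [Finset.coe_range, Set.mem_Iio] at hs
      have := hL m N s (by omega) w hw
      convert this using 1
      funext t
      simp only [fac]
      exact wext_apply w _ (by omega)
    rw [← Set.ncard_coe_finset]
    exact Set.ncard_le_ncard hsub (Set.toFinite _)
  choose! ci cq cr h1 h2 h3 h4 h5 h6 using hstr
  let T := Fin (B + 1) × Fin (B + 1) × Fin (B + 1) × (Fin (2 * B) → Bool) × (Fin B → Bool)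
  refine ⟨Nat.card T, ?_⟩
  intro m
  let code : (Fin m → Bool) → T := fun w =>
    (Fin.ofNat (B + 1) (ci m w), Fin.ofNat (B + 1) (cq m w), Fin.ofNat (B + 1) (m - cr m w),
      (fun t => wext w t), (fun t => wext w (m - B + t)))
  have hinj : Set.InjOn code (L m) := by
    intro w hw w' hw' hcode
    have c1 := congrArg (fun t : T => t.1) hcode
    have c2 := congrArg (fun t : T => t.2.1) hcode
    have c3 := congrArg (fun t : T => t.2.2.1) hcode
    have c4 := congrArg (fun t : T => t.2.2.2.1) hcode
    have c5 := congrArg (fun t : T => t.2.2.2.2) hcode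
    simp only [code] at c1 c2 c3 c4 c5
    have d1 : ci m w = ci m w' := by
      have := congrArg Fin.val c1
      simp only [Fin.ofNat] at this
      rwa [Nat.mod_eq_of_lt (by have := h1 m w hw; omega),
        Nat.mod_eq_of_lt (by have := h1 m w' hw'; omega)] at this
    have d2 : cq m w = cq m w' := by
      have := congrArg Fin.val c2
      simp only [Fin.ofNat] at this
      rwa [Nat.mod_eq_of_lt (by have := h3 m w hw; omega),
        Nat.mod_eq_of_lt (by have := h3 m w' hw'; omega)] at this
    have d3 : cr m w = cr m w' := by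
      have := congrArg Fin.val c3
      simp only [Fin.ofNat] at this
      rw [Nat.mod_eq_of_lt (by have := h5 m w hw; omega),
        Nat.mod_eq_of_lt (by have := h5 m w' hw'; omega)] at this
      have := h4 m w hw
      have := h4 m w' hw'
      omega
    have hall : ∀ u, u < m → wext w u = wext w' u := by
      intro u
      induction u using Nat.strong_induction_on with
      | _ u ih =>
        intro hu
        have a1 := h1 m w hw
        have a2 := h2 m w hw
        have a3 := h3 m w hw
        have a4 := h4 m w hw
        have a5 := h5 m w hw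
        rcases Nat.lt_or_ge u (2 * B) with hb | hb
        · exact congrFun c4 ⟨u, hb⟩
        · rcases Nat.lt_or_ge u (cr m w) with hr | hr
          · rw [h6 m w hw u (by omega) hr, h6 m w' hw' u (by omega) (by omega), ← d2]
            exact ih (u - cq m w) (by omega) (by omega)
          · have := congrFun c5 ⟨u - (m - B), by omega⟩
            simp only at this
            have e1 : m - B + (u - (m - B)) = u := by omega
            rwa [e1] at this
    funext u
    have := hall u u.2
    rwa [wext_apply _ _ u.2, wext_apply _ _ u.2] at this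
  calc (L m).ncard ≤ (Set.univ : Set T).ncard :=
        Set.ncard_le_ncard_of_injOn code (fun _ _ => Set.mem_univ _) hinj (Set.toFinite _)
    _ = Nat.card T := Set.ncard_univ T

end Pool.Agent.Work.MP_65ae80_co
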