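import Mathlib
import Pool.Agent.Work.MP_65ae80_co.Defs
import Pool.Agent.Work.MP_65ae80_co.Words

/-! Order ideals of connected (sum-indecomposable) permutations, the words of left-to-right
maxima, and the boundedness theorem for ideals avoiding `321` or `312`. -/

namespace Pool.Agent.Work.MP_65ae80_co

open Equiv

/-- every cut is crossed by an inversion -/
def Conn {n : ℕ} (π : Perm (Fin n)) : Prop :=
  ∀ c : ℕ, 0 < c → c < n → ∃ a b : Fin n, (a : ℕ) < c ∧ c ≤ (b : ℕ) ∧ π b < π a

lemma cut_iff {n : ℕ} (π : Perm (Fin n)) (c : ℕ) :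
    (∀ a : Fin n, (a : ℕ) < c → (π a : ℕ) < c) ↔ (∀ b : Fin n, c ≤ (b : ℕ) → c ≤ (π b : ℕ)) := by
  constructor
  · intro h b hb
    by_contra hcon
    push Not at hcon
    have h1 : Set.MapsTo π {a : Fin n | (a : ℕ) < c} {a : Fin n | (a : ℕ) < c} :=
      fun a ha => h a ha
    have h2 := Equiv.Perm.perm_symm_mapsTo_of_mapsTo π h1
    have h3 := h2 (show π b ∈ {a : Fin n | (a : ℕ) < c} from hcon)
    rw [Equiv.symm_apply_apply] at h3
    exact absurd hb (not_le.2 h3)
  · intro h a ha
    by_contra hcon
    push Not at hcon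
    have h1 : Set.MapsTo π {a : Fin n | c ≤ (a : ℕ)} {a : Fin n | c ≤ (a : ℕ)} :=
      fun a ha => h a ha
    have h2 := Equiv.Perm.perm_symm_mapsTo_of_mapsTo π h1
    have h3 := h2 (show π a ∈ {a : Fin n | c ≤ (a : ℕ)} from hcon)
    rw [Equiv.symm_apply_apply] at h3
    exact absurd ha (not_lt.2 h3)

lemma conn_iff {n : ℕ} (π : Perm (Fin n)) :
    Conn π ↔ ∀ c : ℕ, 0 < c → c < n → ∃ a : Fin n, (a : ℕ) < c ∧ c ≤ (π a : ℕ) := by
  constructor
  · intro h c h0 hn
    by_contra hcon
    push Not at hcon
    have h2 := (cut_iff π c).1 hcon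
    obtain ⟨a, b, ha, hb, hab⟩ := h c h0 hn
    have h3 := hcon a ha
    have h4 := h2 b hb
    rw [Fin.lt_def] at hab
    omega
  · intro h c h0 hn
    obtain ⟨a, ha, ha2⟩ := h c h0 hn
    by_contra hcon
    push Not at hcon
    have : ¬ (∀ b : Fin n, c ≤ (b : ℕ) → c ≤ (π b : ℕ)) := by
      intro h5
      have := (cut_iff π c).2 h5 a ha
      omega
    push Not at this
    obtain ⟨b, hb, hb2⟩ := this
    have h6 := hcon a b ha hb
    rw [Fin.le_def] at h6
    omega

/-- standardisation of an injective sequence -/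
lemma exists_std {k : ℕ} {α : Type*} [LinearOrder α] (f : Fin k → α)
    (hf : Function.Injective f) : ∃ σ : Perm (Fin k), ∀ i j, σ i < σ j ↔ f i < f j := by
  refine ⟨(Tuple.sort f)⁻¹, fun i j => ?_⟩
  have hm : StrictMono (f ∘ Tuple.sort f) :=
    (Tuple.monotone_sort f).strictMono_of_injective (hf.comp (Tuple.sort f).injective)
  have := hm.lt_iff_lt (a := (Tuple.sort f)⁻¹ i) (b := (Tuple.sort f)⁻¹ j)
  simpa using this.symm

lemma std_unique {k : ℕ} (σ τ : Perm (Fin k)) (h : ∀ i j, σ i < σ j ↔ τ i < τ j) : σ = τ := by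
  classical
  have key : ∀ (ρ : Perm (Fin k)) (i : Fin k),
      (ρ i : ℕ) = (Finset.univ.filter (fun j => ρ j < ρ i)).card := by
    intro ρ i
    have h1 : (Finset.univ.filter (fun j => ρ j < ρ i)).card
        = (Finset.univ.filter (fun j => j < ρ i)).card := by
      apply Finset.card_bij (fun j _ => ρ j)
      · intro j hj
        simpa using hj
      · intro a _ b _ hab
        exact ρ.injective hab
      · intro b hb
        refine ⟨ρ.symm b, ?_, by simp⟩
        simpa using hb
    have h2 : (Finset.univ.filter (fun j => j < ρ i)) = Finset.Iio (ρ i) := by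
      ext j
      simp
    rw [h1, h2, Fin.card_Iio]
  ext i
  rw [key σ i, key τ i]
  congr 1
  ext j
  simp [h j i]

/-- order ideals of connected permutations -/
structure IsIdeal (I : ∀ n : ℕ, Set (Perm (Fin n))) : Prop where
  conn : ∀ (n : ℕ) (π : Perm (Fin n)), π ∈ I n → Conn π
  down : ∀ (n k : ℕ) (π : Perm (Fin n)) (σ : Perm (Fin k)), π ∈ I n → Contains π σ →
    Conn σ → σ ∈ I k

/-- left-to-right maximum at position `i` -/
def lrm {n : ℕ} (π : Perm (Fin n)) (i : Fin n) : Prop := ∀ j : Fin n, j < i → π j < π i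

/-- the window lemma: the word of left-to-right maxima of a connected permutation can be
restricted to any factor by passing to a connected subpermutation. -/
lemma window {n k : ℕ} (π : Perm (Fin n)) (hπ : Conn π) (i : ℕ) (hi : 1 ≤ i)
    (hik : i + k + 1 ≤ n) :
    ∃ σ : Perm (Fin (k + 2)), Contains π σ ∧ Conn σ ∧
      ∀ t : Fin k, (lrm σ ⟨t + 1, by omega⟩ ↔ lrm π ⟨i + t, by omega⟩) := by
  classical
  -- the maximum before `i`
  obtain ⟨x, hx1, hx2⟩ : ∃ x : Fin n, (x : ℕ) < i ∧ ∀ u : Fin n, (u : ℕ) < i → π u ≤ π x := by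
    obtain ⟨x, hx, hx'⟩ := Finset.exists_max_image
      (Finset.univ.filter (fun u : Fin n => (u : ℕ) < i)) (fun u => π u)
      ⟨⟨0, by omega⟩, by simp; omega⟩
    simp only [Finset.mem_filter, Finset.mem_univ, true_and] at hx hx'
    exact ⟨x, hx, hx'⟩
  -- the minimum from `i + k` on
  obtain ⟨z, hz1, hz2⟩ : ∃ z : Fin n, i + k ≤ (z : ℕ) ∧
      ∀ u : Fin n, i + k ≤ (u : ℕ) → π z ≤ π u := by
    obtain ⟨z, hz, hz'⟩ := Finset.exists_min_image
      (Finset.univ.filter (fun u : Fin n => i + k ≤ (u : ℕ))) (fun u => π u)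
      ⟨⟨i + k, by omega⟩, by simp⟩
    simp only [Finset.mem_filter, Finset.mem_univ, true_and] at hz hz'
    exact ⟨z, hz, hz'⟩
  -- the embedding
  let e : Fin (k + 2) → Fin n := fun t =>
    if h0 : (t : ℕ) = 0 then x else if h1 : (t : ℕ) = k + 1 then z
      else ⟨i + t - 1, by have := t.2; omega⟩
  have e0 : ∀ t : Fin (k + 2), (t : ℕ) = 0 → e t = x := by
    intro t ht; simp only [e, ht, dite_true]
  have e1 : ∀ t : Fin (k + 2), (t : ℕ) = k + 1 → e t = z := by
    intro t ht
    simp only [e]
    rw [dif_neg (by omega), dif_pos ht]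
  have e2 : ∀ t : Fin (k + 2), (t : ℕ) ≠ 0 → (t : ℕ) ≠ k + 1 → (e t : ℕ) = i + t - 1 := by
    intro t h0 h1
    simp only [e]
    rw [dif_neg h0, dif_neg h1]
  have hmono : StrictMono e := by
    intro s t hst
    rw [Fin.lt_def] at hst ⊢
    have hs := s.2
    have ht := t.2
    by_cases s0 : (s : ℕ) = 0
    · by_cases t1 : (t : ℕ) = k + 1
      · rw [e0 s s0, e1 t t1]; omega
      · rw [e0 s s0, e2 t (by omega) t1]; omega
    · by_cases t1 : (t : ℕ) = k + 1
      · rw [e2 s s0 (by omega), e1 t t1]; omega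
      · rw [e2 s s0 (by omega), e2 t (by omega) t1]; omega
  obtain ⟨σ, hσ⟩ := exists_std (fun t => π (e t)) (π.injective.comp hmono.injective)
  refine ⟨σ, ⟨e, hmono, hσ⟩, ?_, ?_⟩
  · -- connectedness
    intro c hc0 hc1
    obtain ⟨a, b, ha, hb, hab⟩ := hπ (i + c - 1) (by omega) (by omega)
    have ha' : ∃ a' : Fin (k + 2), (a' : ℕ) < c ∧ π a ≤ π (e a') := by
      by_cases h : (a : ℕ) < i
      · exact ⟨⟨0, by omega⟩, hc0, by rw [e0 _ rfl]; exact hx2 a h⟩
      · refine ⟨⟨a - i + 1, by omega⟩, by simp only; omega, ?_⟩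
        have : e ⟨a - i + 1, by omega⟩ = a := by
          apply Fin.ext
          rw [e2 _ (by simp) (by simp only; omega)]
          simp only
          omega
        rw [this]
    have hb' : ∃ b' : Fin (k + 2), c ≤ (b' : ℕ) ∧ π (e b') ≤ π b := by
      by_cases h : i + k ≤ (b : ℕ)
      · exact ⟨⟨k + 1, by omega⟩, by simp only; omega, by rw [e1 _ rfl]; exact hz2 b h⟩
      · refine ⟨⟨b - i + 1, by omega⟩, by simp only; omega, ?_⟩
        have : e ⟨b - i + 1, by omega⟩ = b := by
          apply Fin.ext
          rw [e2 _ (by simp) (by simp only; omega)]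
          simp only
          omega
        rw [this]
    obtain ⟨a', ha1, ha2⟩ := ha'
    obtain ⟨b', hb1, hb2⟩ := hb'
    refine ⟨a', b', ha1, hb1, ?_⟩
    rw [hσ]
    exact lt_of_le_of_lt hb2 (lt_of_lt_of_le hab ha2)
  · -- the words agree
    intro t
    have ht := t.2
    have het : e ⟨t + 1, by omega⟩ = ⟨i + t, by omega⟩ := by
      apply Fin.ext
      rw [e2 _ (by simp) (by simp only; omega)]
      simp only
      omega
    constructor
    · intro h u hu
      rw [Fin.lt_def] at hu
      simp only at hu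
      by_cases hui : (u : ℕ) < i
      · have h1 := h ⟨0, by omega⟩ (by rw [Fin.lt_def]; simp)
        rw [hσ, e0 _ rfl, het] at h1
        exact lt_of_le_of_lt (hx2 u hui) h1
      · have h1 := h ⟨u - i + 1, by omega⟩ (by rw [Fin.lt_def]; simp only; omega)
        rw [hσ, het] at h1
        have : e ⟨u - i + 1, by omega⟩ = u := by
          apply Fin.ext
          rw [e2 _ (by simp) (by simp only; omega)]
          simp only
          omega
        rwa [this] at h1
    · intro h s hs
      rw [hσ, het]
      apply h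
      rw [← het]
      exact hmono hs

/-- the word of left-to-right maxima, without the first and the last letter -/
noncomputable def word {k : ℕ} (π : Perm (Fin (k + 2))) : Fin k → Bool := by
  classical
  exact fun t => decide (lrm π ⟨t + 1, by omega⟩)

/-- the language of an ideal -/
def Lang (I : ∀ n : ℕ, Set (Perm (Fin n))) (k : ℕ) : Set (Fin k → Bool) := word '' I (k + 2)

lemma lang_factor {I : ∀ n : ℕ, Set (Perm (Fin n))} (hI : IsIdeal I) :
    ∀ m m' a (h : a + m' ≤ m) (w : Fin m → Bool), w ∈ Lang I m →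
      (fun t : Fin m' => w ⟨a + t, by omega⟩) ∈ Lang I m' := by
  intro m m' a h w hw
  obtain ⟨π, hπ, rfl⟩ := hw
  obtain ⟨σ, hσ1, hσ2, hσ3⟩ := window (k := m') π (hI.conn _ _ hπ) (a + 1) (by omega) (by omega)
  refine ⟨σ, hI.down _ _ _ _ hπ hσ1 hσ2, ?_⟩
  funext t
  simp only [word]
  rw [decide_eq_decide, hσ3 t]
  have : (⟨a + 1 + t, by omega⟩ : Fin (m + 2)) = ⟨a + t + 1, by omega⟩ := by
    apply Fin.ext
    simp only
    omega
  rw [this]

lemma lang_ncard_le (I : ∀ n : ℕ, Set (Perm (Fin n))) (k : ℕ) :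
    (Lang I k).ncard ≤ (I (k + 2)).ncard := Set.ncard_image_le (Set.toFinite _)

/-- reflection in the antidiagonal -/
def theta {n : ℕ} (π : Perm (Fin n)) : Perm (Fin n) :=
  (Fin.revPerm.trans π.symm).trans Fin.revPerm

lemma theta_apply {n : ℕ} (π : Perm (Fin n)) (i : Fin n) :
    theta π i = (π.symm i.rev).rev := rfl

lemma theta_theta {n : ℕ} (π : Perm (Fin n)) : theta (theta π) = π := by
  ext i
  have : (theta (theta π)) i = ((theta π).symm i.rev).rev := rfl
  rw [this]
  have h2 : (theta π).symm i.rev = (π i).rev := by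
    rw [Equiv.symm_apply_eq, theta_apply, Fin.rev_rev, Equiv.symm_apply_apply]
  rw [h2, Fin.rev_rev]

lemma conn_theta {n : ℕ} {π : Perm (Fin n)} (h : Conn π) : Conn (theta π) := by
  rw [conn_iff] at h ⊢
  intro c h0 hn
  obtain ⟨a, ha1, ha2⟩ := h (n - c) (by omega) (by omega)
  refine ⟨(π a).rev, ?_, ?_⟩
  · rw [Fin.val_rev]
    have := (π a).2
    omega
  · rw [theta_apply, Fin.rev_rev, Equiv.symm_apply_apply, Fin.val_rev]
    have := a.2
    omega

lemma lrm_theta {n : ℕ} (π : Perm (Fin n)) (i : Fin n) :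
    lrm (theta π) (π i).rev ↔ lrm π i := by
  constructor
  · intro h j hj
    by_contra hcon
    have hne : π j ≠ π i := fun h' => by
      have := π.injective h'
      rw [this] at hj
      exact lt_irrefl _ hj
    have h1 : π i < π j := lt_of_le_of_ne (not_lt.1 hcon) (Ne.symm hne)
    have h2 := h (π j).rev (Fin.rev_lt_rev.2 h1)
    rw [theta_apply, theta_apply, Fin.rev_rev, Fin.rev_rev, Equiv.symm_apply_apply,
      Equiv.symm_apply_apply, Fin.rev_lt_rev] at h2
    exact absurd h2 (not_lt.2 hj.le)
  · intro h j hj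
    rw [theta_apply, theta_apply, Fin.rev_rev, Equiv.symm_apply_apply, Fin.rev_lt_rev]
    have h1 : π i < π (π.symm j.rev) := by
      rw [Equiv.apply_symm_apply]
      rwa [← Fin.rev_lt_rev, Fin.rev_rev]
    by_contra hcon
    rcases lt_or_eq_of_le (not_lt.1 hcon) with h2 | h2
    · exact absurd (h _ h2) (not_lt.2 h1.le)
    · rw [h2] at h1
      exact lt_irrefl _ h1

lemma contains_theta {n k : ℕ} {π : Perm (Fin n)} {σ : Perm (Fin k)} (h : Contains π σ) :
    Contains (theta π) (theta σ) := by
  obtain ⟨e, he, hσ⟩ := h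
  refine ⟨fun j => (π (e (σ.symm j.rev))).rev, ?_, ?_⟩
  · intro i j hij
    simp only
    rw [Fin.rev_lt_rev, ← hσ, Equiv.apply_symm_apply, Equiv.apply_symm_apply, Fin.rev_lt_rev]
    exact hij
  · intro i j
    rw [theta_apply, theta_apply, theta_apply, theta_apply, Fin.rev_rev, Fin.rev_rev,
      Equiv.symm_apply_apply, Equiv.symm_apply_apply, Fin.rev_lt_rev, Fin.rev_lt_rev,
      he.lt_iff_lt]

/-- the reflected ideal -/
def thetaI (I : ∀ n : ℕ, Set (Perm (Fin n))) (n : ℕ) : Set (Perm (Fin n)) :=
  {σ | theta σ ∈ I n}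

lemma isIdeal_theta {I : ∀ n : ℕ, Set (Perm (Fin n))} (hI : IsIdeal I) : IsIdeal (thetaI I) := by
  constructor
  · intro n π hπ
    have := conn_theta (hI.conn n _ hπ)
    rwa [theta_theta] at this
  · intro n k π σ hπ hc hσ
    exact hI.down n k _ _ hπ (contains_theta hc) (conn_theta hσ)

lemma thetaI_ncard_le (I : ∀ n : ℕ, Set (Perm (Fin n))) (n : ℕ) :
    (thetaI I n).ncard ≤ (I n).ncard := by
  apply Set.ncard_le_ncard_of_injOn theta (fun σ hσ => hσ) _ (Set.toFinite _)
  intro a _ b _ hab
  rw [← theta_theta a, hab, theta_theta]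

def Has231 {n : ℕ} (π : Perm (Fin n)) : Prop :=
  ∃ a b c : Fin n, a < b ∧ b < c ∧ π c < π a ∧ π a < π b
def Has312 {n : ℕ} (π : Perm (Fin n)) : Prop :=
  ∃ a b c : Fin n, a < b ∧ b < c ∧ π b < π c ∧ π c < π a
def Has321 {n : ℕ} (π : Perm (Fin n)) : Prop :=
  ∃ a b c : Fin n, a < b ∧ b < c ∧ π c < π b ∧ π b < π a

/-- a permutation without `321` (or without `312`) is determined by its left-to-right maxima
(positions and values) -/
lemma det {n : ℕ} (π π' : Perm (Fin n)) (hP : ∀ i, lrm π i ↔ lrm π' i)
    (hV : ∀ i, lrm (theta π) i ↔ lrm (theta π') i)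
    (hav : (¬ Has321 π ∧ ¬ Has321 π') ∨ (¬ Has312 π ∧ ¬ Has312 π')) : π = π' := by
  have main : ∀ i, ∀ u : Fin n, (u : ℕ) = i → π u = π' u := by
    intro i
    induction i using Nat.strong_induction_on with
    | _ i ih =>
      intro u hu
      have ih' : ∀ s : Fin n, s < u → π s = π' s := by
        intro s hs
        exact ih s (by rw [← hu]; exact hs) s rfl
      by_cases hlr : lrm π u
      · have hlr' := (hP u).1 hlr
        -- values
        obtain ⟨k, hk1, hk2⟩ : ∃ k, π' k = π u ∧ lrm π' k := by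
          refine ⟨π'.symm (π u), by simp, ?_⟩
          rw [← lrm_theta, Equiv.apply_symm_apply, ← hV, lrm_theta]
          exact hlr
        obtain ⟨l, hl1, hl2⟩ : ∃ l, π l = π' u ∧ lrm π l := by
          refine ⟨π.symm (π' u), by simp, ?_⟩
          rw [← lrm_theta, Equiv.apply_symm_apply, hV, lrm_theta]
          exact hlr'
        rcases lt_trichotomy (π u) (π' u) with h | h | h
        · exfalso
          rcases lt_trichotomy k u with h1 | h1 | h1
          · have := ih' k h1
            rw [hk1] at this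
            have := π.injective this
            rw [this] at h1
            exact lt_irrefl _ h1
          · rw [h1] at hk1
            rw [hk1] at h
            exact lt_irrefl _ h
          · have := hk2 u h1
            rw [hk1] at this
            exact absurd this (not_lt.2 h.le)
        · exact h
        · exfalso
          rcases lt_trichotomy l u with h1 | h1 | h1
          · have := ih' l h1
            rw [hl1] at this
            have := π'.injective this
            rw [this] at h1
            exact lt_irrefl _ h1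
          · rw [h1] at hl1
            rw [hl1] at h
            exact lt_irrefl _ h
          · have := hl2 u h1
            rw [hl1] at this
            exact absurd this (not_lt.2 h.le)
      · have hlr' : ¬ lrm π' u := fun h => hlr ((hP u).2 h)
        have hx : ∃ x, x < u ∧ π u < π x := by
          unfold lrm at hlr
          push Not at hlr
          obtain ⟨x, hx1, hx2⟩ := hlr
          refine ⟨x, hx1, lt_of_le_of_ne hx2 ?_⟩
          intro h
          have := π.injective h
          rw [this] at hx1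
          exact lt_irrefl _ hx1
        have hx' : ∃ x, x < u ∧ π' u < π' x := by
          unfold lrm at hlr'
          push Not at hlr'
          obtain ⟨x, hx1, hx2⟩ := hlr'
          refine ⟨x, hx1, lt_of_le_of_ne hx2 ?_⟩
          intro h
          have := π'.injective h
          rw [this] at hx1
          exact lt_irrefl _ hx1
        obtain ⟨x, hx1, hx2⟩ := hx
        obtain ⟨x', hx1', hx2'⟩ := hx'
        -- positions of the values
        have hk : ∀ (α β : Perm (Fin n)), (∀ s : Fin n, s < u → α s = β s) → α u ≠ β u →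
            u < β.symm (α u) := by
          intro α β hαβ hne
          rcases lt_trichotomy (β.symm (α u)) u with h1 | h1 | h1
          · have := hαβ _ h1
            rw [Equiv.apply_symm_apply] at this
            have := α.injective this
            rw [this] at h1
            exact absurd h1 (lt_irrefl _)
          · exfalso
            apply hne
            rw [← h1, Equiv.apply_symm_apply, h1]
          · exact h1
        rcases lt_trichotomy (π u) (π' u) with h | h | h
        · exfalso
          rcases hav with ⟨_, hav2⟩ | ⟨hav1, _⟩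
          · -- 321 in π'
            apply hav2
            refine ⟨x', u, π'.symm (π u), hx1', hk π π' ih' h.ne, ?_, hx2'⟩
            rw [Equiv.apply_symm_apply]
            exact h
          · -- 312 in π
            apply hav1
            refine ⟨x', u, π.symm (π' u), hx1', hk π' π (fun s hs => (ih' s hs).symm) h.ne', ?_,
              ?_⟩
            · rw [Equiv.apply_symm_apply]
              exact h
            · rw [Equiv.apply_symm_apply, ih' x' hx1']
              exact hx2'
        · exact h
        · exfalso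
          rcases hav with ⟨hav1, _⟩ | ⟨_, hav2⟩
          · apply hav1
            refine ⟨x, u, π.symm (π' u), hx1, hk π' π (fun s hs => (ih' s hs).symm) h.ne, ?_, hx2⟩
            rw [Equiv.apply_symm_apply]
            exact h
          · apply hav2
            refine ⟨x, u, π'.symm (π u), hx1, hk π π' ih' h.ne', ?_, ?_⟩
            · rw [Equiv.apply_symm_apply]
              exact h
            · rw [Equiv.apply_symm_apply, ← ih' x hx1]
              exact hx2
  exact Equiv.ext fun u => main u u rfl

lemma lrm_zero {k : ℕ} (π : Perm (Fin (k + 2))) (i : Fin (k + 2)) (hi : (i : ℕ) = 0) :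
    lrm π i := by
  intro j hj
  rw [Fin.lt_def] at hj
  omega

lemma not_lrm_last {k : ℕ} {π : Perm (Fin (k + 2))} (hπ : Conn π) (i : Fin (k + 2))
    (hi : (i : ℕ) = k + 1) : ¬ lrm π i := by
  intro h
  obtain ⟨a, b, ha, hb, hab⟩ := hπ (k + 1) (by omega) (by omega)
  have : b = i := Fin.ext (by have := b.2; omega)
  rw [this] at hab
  exact absurd (h a (by rw [Fin.lt_def]; omega)) (not_lt.2 hab.le)

lemma lrm_of_word_eq {k : ℕ} {π π' : Perm (Fin (k + 2))} (hπ : Conn π) (hπ' : Conn π')
    (h : word π = word π') (i : Fin (k + 2)) : lrm π i ↔ lrm π' i := by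
  by_cases h0 : (i : ℕ) = 0
  · exact iff_of_true (lrm_zero π i h0) (lrm_zero π' i h0)
  by_cases h1 : (i : ℕ) = k + 1
  · exact iff_of_false (not_lrm_last hπ i h1) (not_lrm_last hπ' i h1)
  have hi := i.2
  have h2 := congrFun h ⟨i - 1, by omega⟩
  simp only [word] at h2
  rw [decide_eq_decide] at h2
  have h3 : (⟨(i : ℕ) - 1 + 1, by omega⟩ : Fin (k + 2)) = i := by
    apply Fin.ext
    simp only
    omega
  rw [h3] at h2
  exact h2

/-- **Boundedness theorem**: an ideal of connected permutations avoiding `321` (or avoiding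
`312`) with at most `N - 2` elements of some length `N ≥ 3` is bounded. -/
theorem bounded_of_avoid {I : ∀ n : ℕ, Set (Perm (Fin n))} (hI : IsIdeal I)
    (hav : (∀ n, ∀ π ∈ I n, ¬ Has321 π) ∨ (∀ n, ∀ π ∈ I n, ¬ Has312 π))
    (N : ℕ) (hN : 3 ≤ N) (hc : (I N).ncard + 2 ≤ N) :
    ∃ K, ∀ n, (I n).ncard ≤ K := by
  classical
  obtain ⟨k, rfl⟩ : ∃ k, N = k + 2 := ⟨N - 2, by omega⟩
  obtain ⟨K1, hK1⟩ := words_bounded (Lang I) (lang_factor hI) k (by omega)
    ((lang_ncard_le I k).trans (by omega))
  obtain ⟨K2, hK2⟩ := words_bounded (Lang (thetaI I)) (lang_factor (isIdeal_theta hI)) k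
    (by omega) ((lang_ncard_le (thetaI I) k).trans ((thetaI_ncard_le I _).trans (by omega)))
  refine ⟨K1 * K2 + 1, ?_⟩
  intro n
  rcases n with _ | _ | m
  · have : (I 0).ncard ≤ 1 := (Set.ncard_le_one_iff (Set.toFinite _)).2
      (fun _ _ => Subsingleton.elim _ _)
    omega
  · have h1 : (I 1).ncard ≤ 1 := (Set.ncard_le_one_iff (Set.toFinite _)).2
      (fun _ _ => Subsingleton.elim _ _)
    have e1 : 0 + 1 = 1 := rfl
    rw [e1]
    omega
  · have h1 : (I (m + 2)).ncard ≤ (Lang I m ×ˢ Lang (thetaI I) m).ncard := by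
      apply Set.ncard_le_ncard_of_injOn (fun π => (word π, word (theta π)))
      · intro π hπ
        refine ⟨⟨π, hπ, rfl⟩, ⟨theta π, ?_, rfl⟩⟩
        show theta (theta π) ∈ I (m + 2)
        rwa [theta_theta]
      · intro π hπ π' hπ' hw
        simp only [Prod.mk.injEq] at hw
        apply det
        · exact lrm_of_word_eq (hI.conn _ _ hπ) (hI.conn _ _ hπ') hw.1
        · exact lrm_of_word_eq (conn_theta (hI.conn _ _ hπ)) (conn_theta (hI.conn _ _ hπ')) hw.2
        · rcases hav with h | h
          · exact Or.inl ⟨h _ _ hπ, h _ _ hπ'⟩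
          · exact Or.inr ⟨h _ _ hπ, h _ _ hπ'⟩
    rw [Set.ncard_prod] at h1
    have h2 := Nat.mul_le_mul (hK1 m) (hK2 m)
    have e1 : m + 1 + 1 = m + 2 := rfl
    rw [e1]
    omega

end Pool.Agent.Work.MP_65ae80_co
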