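import Mathlib
import Pool.Agent.Work.MP_65ae80_co.Ideal

/-! Growing connected subpermutations one entry at a time. -/

namespace Pool.Agent.Work.MP_65ae80_co

open Equiv

/-- the restriction of `π` to the positions in `S` is connected -/
def ConnOn {n : ℕ} (π : Perm (Fin n)) (S : Finset (Fin n)) : Prop :=
  ∀ c : ℕ, (∃ a ∈ S, (a : ℕ) < c) → (∃ b ∈ S, c ≤ (b : ℕ)) →
    ∃ a ∈ S, ∃ b ∈ S, (a : ℕ) < c ∧ c ≤ (b : ℕ) ∧ π b < π a

lemma exists_inversion_out {n : ℕ} (π : Perm (Fin n)) (hπ : Conn π) (S : Finset (Fin n))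
    (hS : S.Nonempty) (hS' : S ≠ Finset.univ) :
    ∃ s ∈ S, ∃ t, t ∉ S ∧ ((s < t ∧ π t < π s) ∨ (t < s ∧ π s < π t)) := by
  classical
  by_contra hcon
  push Not at hcon
  obtain ⟨s0, hs0⟩ := hS
  obtain ⟨t0, ht0⟩ : ∃ t, t ∉ S := by
    by_contra h
    push Not at h
    exact hS' (Finset.eq_univ_iff_forall.2 h)
  have hn : 0 < n := lt_of_le_of_lt (Nat.zero_le _) s0.2
  -- elements of opposite kind are in increasing position
  have hopp : ∀ a b : Fin n, a < b → ¬ (a ∈ S ↔ b ∈ S) → π a < π b := by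
    intro a b hab hne
    have hab' : π a ≠ π b := fun h => by
      have := π.injective h
      rw [this] at hab
      exact lt_irrefl _ hab
    by_cases ha : a ∈ S
    · have hb : b ∉ S := fun hb => hne (iff_of_true ha hb)
      exact lt_of_le_of_ne ((hcon a ha b hb).1 hab) hab'
    · have hb : b ∈ S := by
        by_contra hb
        exact hne (iff_of_false ha hb)
      exact lt_of_le_of_ne ((hcon b hb a ha).2 hab) hab'
  -- the first element whose kind differs from that of `0`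
  have hex : ∃ b : ℕ, ∃ h : b < n, ¬ ((⟨b, h⟩ : Fin n) ∈ S ↔ (⟨0, hn⟩ : Fin n) ∈ S) := by
    by_cases h0 : (⟨0, hn⟩ : Fin n) ∈ S
    · exact ⟨t0, t0.2, fun h => ht0 (h.2 h0)⟩
    · exact ⟨s0, s0.2, fun h => h0 (h.1 hs0)⟩
  obtain ⟨hb1, hb2⟩ := Nat.find_spec hex
  set b := Nat.find hex with hb
  have hbefore : ∀ a : Fin n, (a : ℕ) < b → (a ∈ S ↔ (⟨0, hn⟩ : Fin n) ∈ S) := by
    intro a ha
    have := Nat.find_min hex ha
    push Not at this
    exact this a.2
  have hb0 : 0 < b := by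
    rcases Nat.eq_zero_or_pos b with h | h
    · exfalso
      apply hb2
      have h' : (⟨b, hb1⟩ : Fin n) = ⟨0, hn⟩ := Fin.ext h
      rw [h']
    · exact h
  obtain ⟨a, d, ha, hd, had⟩ := hπ b hb0 hb1
  have h1 : π a < π ⟨b, hb1⟩ := by
    apply hopp _ _ (by rw [Fin.lt_def]; exact ha)
    intro h
    exact hb2 (h.symm.trans (hbefore a ha))
  by_cases hkind : (d ∈ S ↔ a ∈ S)
  · rcases Nat.lt_or_ge b d with h2 | h2
    · have h3 : π ⟨b, hb1⟩ < π d := by
        apply hopp _ _ (by rw [Fin.lt_def]; exact h2)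
        intro h
        exact hb2 (h.trans (hkind.trans (hbefore a ha)))
      exact absurd had (not_lt.2 (h1.trans h3).le)
    · have : d = ⟨b, hb1⟩ := Fin.ext (by simp only; omega)
      rw [← this] at h1
      exact absurd had (not_lt.2 h1.le)
  · have h3 : π a < π d := by
      apply hopp _ _ (by rw [Fin.lt_def]; omega)
      intro h
      exact hkind h.symm
    exact absurd had (not_lt.2 h3.le)

lemma grow_one {n : ℕ} (π : Perm (Fin n)) (hπ : Conn π) (S : Finset (Fin n))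
    (hS : S.Nonempty) (hSc : ConnOn π S) (hcard : S.card < n) :
    ∃ T, S ⊆ T ∧ T.card = S.card + 1 ∧ ConnOn π T := by
  classical
  have hS' : S ≠ Finset.univ := by
    intro h
    rw [h, Finset.card_univ, Fintype.card_fin] at hcard
    exact lt_irrefl _ hcard
  obtain ⟨s, hs, t, ht, hst⟩ := exists_inversion_out π hπ S hS hS'
  refine ⟨insert t S, Finset.subset_insert _ _, Finset.card_insert_of_notMem ht, ?_⟩
  intro c h1 h2
  by_cases ha : ∃ a ∈ S, (a : ℕ) < c
  · by_cases hb : ∃ b ∈ S, c ≤ (b : ℕ)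
    · obtain ⟨a, ha, b, hb, h⟩ := hSc c ha hb
      exact ⟨a, Finset.mem_insert_of_mem ha, b, Finset.mem_insert_of_mem hb, h⟩
    · push Not at hb
      obtain ⟨b, hb1, hb2⟩ := h2
      have hbt : b = t := by
        rcases Finset.mem_insert.1 hb1 with h | h
        · exact h
        · have := hb b h
          omega
      have hsc := hb s hs
      rw [hbt] at hb2
      refine ⟨s, Finset.mem_insert_of_mem hs, t, Finset.mem_insert_self _ _, hsc, hb2, ?_⟩
      rcases hst with h | h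
      · exact h.2
      · have := h.1
        rw [Fin.lt_def] at this
        omega
  · push Not at ha
    obtain ⟨a, ha1, ha2⟩ := h1
    have hat : a = t := by
      rcases Finset.mem_insert.1 ha1 with h | h
      · exact h
      · have := ha a h
        omega
    have hsc := ha s hs
    rw [hat] at ha2
    refine ⟨t, Finset.mem_insert_self _ _, s, Finset.mem_insert_of_mem hs, ha2, hsc, ?_⟩
    rcases hst with h | h
    · have := h.1
      rw [Fin.lt_def] at this
      omega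
    · exact h.2

lemma grow {n : ℕ} (π : Perm (Fin n)) (hπ : Conn π) (S : Finset (Fin n))
    (hS : S.Nonempty) (hSc : ConnOn π S) (m : ℕ) (hm : S.card ≤ m) (hmn : m ≤ n) :
    ∃ T, S ⊆ T ∧ T.card = m ∧ ConnOn π T := by
  induction m, hm using Nat.le_induction with
  | base => exact ⟨S, Finset.Subset.refl _, rfl, hSc⟩
  | succ m hm ih =>
    obtain ⟨T, h1, h2, h3⟩ := ih (by omega)
    obtain ⟨U, h4, h5, h6⟩ := grow_one π hπ T (hS.mono h1) h3 (by omega)
    exact ⟨U, h1.trans h4, by omega, h6⟩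

/-- elements of the ideal restrict to connected permutations of every intermediate length -/
lemma ideal_grow {I : ∀ n : ℕ, Set (Perm (Fin n))} (hI : IsIdeal I) {n : ℕ} (π : Perm (Fin n))
    (hπ : π ∈ I n) (S : Finset (Fin n)) (hS : S.Nonempty) (hSc : ConnOn π S) (m : ℕ)
    (hm : S.card ≤ m) (hmn : m ≤ n) :
    ∃ σ ∈ I m, ∃ e : Fin m → Fin n, StrictMono e ∧ (∀ i j, σ i < σ j ↔ π (e i) < π (e j)) ∧
      ∀ s ∈ S, ∃ i, e i = s := by
  obtain ⟨T, h1, h2, h3⟩ := grow π (hI.conn n π hπ) S hS hSc m hm hmn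
  obtain ⟨σ, hσ⟩ := exists_std (fun t => π (T.orderEmbOfFin h2 t))
    (π.injective.comp (T.orderEmbOfFin h2).injective)
  have hrange : ∀ s ∈ T, ∃ i, T.orderEmbOfFin h2 i = s := by
    intro s hs
    have : s ∈ Set.range (T.orderEmbOfFin h2) := by
      rw [Finset.range_orderEmbOfFin]
      exact hs
    exact this
  have hconn : Conn σ := by
    intro c h0 hc
    obtain ⟨a, ha, b, hb, hab1, hab2, hab3⟩ := h3 (T.orderEmbOfFin h2 ⟨c, hc⟩ : ℕ)
      ⟨T.orderEmbOfFin h2 ⟨0, by omega⟩, Finset.orderEmbOfFin_mem _ _ _, by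
        rw [← Fin.lt_def]
        apply (T.orderEmbOfFin h2).strictMono
        rw [Fin.lt_def]
        exact h0⟩
      ⟨T.orderEmbOfFin h2 ⟨c, hc⟩, Finset.orderEmbOfFin_mem _ _ _, le_rfl⟩
    obtain ⟨a', rfl⟩ := hrange a ha
    obtain ⟨b', rfl⟩ := hrange b hb
    refine ⟨a', b', ?_, ?_, ?_⟩
    · rw [← Fin.lt_def] at hab1
      have := (T.orderEmbOfFin h2).lt_iff_lt.1 hab1
      rw [Fin.lt_def] at this
      exact this
    · rw [← Fin.le_def] at hab2
      have := (T.orderEmbOfFin h2).le_iff_le.1 hab2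
      rw [Fin.le_def] at this
      exact this
    · rw [hσ]
      exact hab3
  refine ⟨σ, ?_, T.orderEmbOfFin h2, (T.orderEmbOfFin h2).strictMono, hσ, ?_⟩
  · exact hI.down n m π σ hπ ⟨_, (T.orderEmbOfFin h2).strictMono, hσ⟩ hconn
  · intro s hs
    exact hrange s (h1 hs)

/-- version for three positions `a < b < c` with `π c < π a` -/
lemma ideal_grow3 {I : ∀ n : ℕ, Set (Perm (Fin n))} (hI : IsIdeal I) {n : ℕ} (π : Perm (Fin n))
    (hπ : π ∈ I n) (a b c : Fin n) (hab : a < b) (hbc : b < c) (hca : π c < π a) (m : ℕ)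
    (hm : 3 ≤ m) (hmn : m ≤ n) :
    ∃ σ ∈ I m, ∃ a' b' c' : Fin m, a' < b' ∧ b' < c' ∧
      (σ a' < σ b' ↔ π a < π b) ∧ (σ b' < σ a' ↔ π b < π a) ∧
      (σ a' < σ c' ↔ π a < π c) ∧ (σ c' < σ a' ↔ π c < π a) ∧
      (σ b' < σ c' ↔ π b < π c) ∧ (σ c' < σ b' ↔ π c < π b) := by
  classical
  have hSc : ConnOn π {a, b, c} := by
    intro k h1 h2
    refine ⟨a, by simp, c, by simp, ?_, ?_, hca⟩
    · obtain ⟨x, hx, hxk⟩ := h1
      rw [Fin.lt_def] at hab hbc
      simp only [Finset.mem_insert, Finset.mem_singleton] at hx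
      rcases hx with rfl | rfl | rfl <;> omega
    · obtain ⟨x, hx, hxk⟩ := h2
      rw [Fin.lt_def] at hab hbc
      simp only [Finset.mem_insert, Finset.mem_singleton] at hx
      rcases hx with rfl | rfl | rfl <;> omega
  have hcard : ({a, b, c} : Finset (Fin n)).card ≤ m := Finset.card_le_three.trans hm
  obtain ⟨σ, hσ, e, he, heq, hS⟩ := ideal_grow hI π hπ {a, b, c} ⟨a, by simp⟩ hSc m hcard hmn
  obtain ⟨a', rfl⟩ := hS a (by simp)
  obtain ⟨b', rfl⟩ := hS b (by simp)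
  obtain ⟨c', rfl⟩ := hS c (by simp)
  exact ⟨σ, hσ, a', b', c', he.lt_iff_lt.1 hab, he.lt_iff_lt.1 hbc, heq _ _, heq _ _, heq _ _,
    heq _ _, heq _ _, heq _ _⟩

/-- the three patterns -/
def Has {n : ℕ} (p : Fin 3) (π : Perm (Fin n)) : Prop :=
  if p = 0 then Has231 π else if p = 1 then Has312 π else Has321 π

lemma has_down {I : ∀ n : ℕ, Set (Perm (Fin n))} (hI : IsIdeal I) {n : ℕ} (p : Fin 3)
    (π : Perm (Fin n)) (hπ : π ∈ I n) (h : Has p π) (m : ℕ) (hm : 3 ≤ m) (hmn : m ≤ n) :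
    ∃ σ ∈ I m, Has p σ := by
  unfold Has at h ⊢
  split_ifs at h ⊢ with h0 h1
  · obtain ⟨a, b, c, hab, hbc, h2, h3⟩ := h
    obtain ⟨σ, hσ, a', b', c', h4, h5, h6, h7, h8, h9, h10, h11⟩ :=
      ideal_grow3 hI π hπ a b c hab hbc h2 m hm hmn
    exact ⟨σ, hσ, a', b', c', h4, h5, h9.2 h2, h6.2 h3⟩
  · obtain ⟨a, b, c, hab, hbc, h2, h3⟩ := h
    obtain ⟨σ, hσ, a', b', c', h4, h5, h6, h7, h8, h9, h10, h11⟩ :=
      ideal_grow3 hI π hπ a b c hab hbc h3 m hm hmn
    exact ⟨σ, hσ, a', b', c', h4, h5, h10.2 h2, h9.2 h3⟩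
  · obtain ⟨a, b, c, hab, hbc, h2, h3⟩ := h
    obtain ⟨σ, hσ, a', b', c', h4, h5, h6, h7, h8, h9, h10, h11⟩ :=
      ideal_grow3 hI π hπ a b c hab hbc (h2.trans h3) m hm hmn
    exact ⟨σ, hσ, a', b', c', h4, h5, h11.2 h2, h7.2 h3⟩

lemma has_of_contains {n k : ℕ} (p : Fin 3) {π : Perm (Fin n)} {σ : Perm (Fin k)}
    (hc : Contains π σ) (h : Has p σ) : Has p π := by
  obtain ⟨e, he, heq⟩ := hc
  unfold Has at h ⊢
  split_ifs at h ⊢ with h0 h1
  · obtain ⟨a, b, c, hab, hbc, h2, h3⟩ := h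
    exact ⟨e a, e b, e c, he hab, he hbc, (heq _ _).1 h2, (heq _ _).1 h3⟩
  · obtain ⟨a, b, c, hab, hbc, h2, h3⟩ := h
    exact ⟨e a, e b, e c, he hab, he hbc, (heq _ _).1 h2, (heq _ _).1 h3⟩
  · obtain ⟨a, b, c, hab, hbc, h2, h3⟩ := h
    exact ⟨e a, e b, e c, he hab, he hbc, (heq _ _).1 h2, (heq _ _).1 h3⟩

/-- reverse-complement -/
def rc {n : ℕ} (π : Perm (Fin n)) : Perm (Fin n) := (Fin.revPerm.trans π).trans Fin.revPerm

lemma rc_apply {n : ℕ} (π : Perm (Fin n)) (i : Fin n) : rc π i = (π i.rev).rev := rfl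

lemma rc_rc {n : ℕ} (π : Perm (Fin n)) : rc (rc π) = π := by
  ext i
  rw [rc_apply, rc_apply, Fin.rev_rev, Fin.rev_rev]

lemma conn_rc {n : ℕ} {π : Perm (Fin n)} (h : Conn π) : Conn (rc π) := by
  intro c h0 hn
  obtain ⟨a, b, ha, hb, hab⟩ := h (n - c) (by omega) (by omega)
  refine ⟨b.rev, a.rev, ?_, ?_, ?_⟩
  · rw [Fin.val_rev]
    have := b.2
    omega
  · rw [Fin.val_rev]
    have := a.2
    omega
  · rw [rc_apply, rc_apply, Fin.rev_rev, Fin.rev_rev, Fin.rev_lt_rev]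
    exact hab

lemma contains_rc {n k : ℕ} {π : Perm (Fin n)} {σ : Perm (Fin k)} (h : Contains π σ) :
    Contains (rc π) (rc σ) := by
  obtain ⟨e, he, hσ⟩ := h
  refine ⟨fun j => (e j.rev).rev, ?_, ?_⟩
  · intro i j hij
    simp only
    rw [Fin.rev_lt_rev]
    exact he (Fin.rev_lt_rev.2 hij)
  · intro i j
    rw [rc_apply, rc_apply, rc_apply, rc_apply, Fin.rev_rev, Fin.rev_rev, Fin.rev_lt_rev,
      Fin.rev_lt_rev, hσ]

lemma has312_rc {n : ℕ} {π : Perm (Fin n)} (h : Has312 (rc π)) : Has231 π := by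
  obtain ⟨a, b, c, hab, hbc, h2, h3⟩ := h
  rw [rc_apply, rc_apply, Fin.rev_lt_rev] at h2 h3
  exact ⟨c.rev, b.rev, a.rev, Fin.rev_lt_rev.2 hbc, Fin.rev_lt_rev.2 hab, h3, h2⟩

/-- boundedness for ideals avoiding one of the three connected patterns of length 3 -/
theorem bounded_of_avoid3 {I : ∀ n : ℕ, Set (Perm (Fin n))} (hI : IsIdeal I) (p : Fin 3)
    (hav : ∀ n, ∀ π ∈ I n, ¬ Has p π) (N : ℕ) (hN : 3 ≤ N) (hc : (I N).ncard + 2 ≤ N) :
    ∃ K, ∀ n, (I n).ncard ≤ K := by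
  unfold Has at hav
  split_ifs at hav with h0 h1
  · -- 231: pass to the reverse-complement
    let J : ∀ n : ℕ, Set (Perm (Fin n)) := fun n => {σ | rc σ ∈ I n}
    have hJ : IsIdeal J := by
      constructor
      · intro n π hπ
        have := conn_rc (hI.conn n _ hπ)
        rwa [rc_rc] at this
      · intro n k π σ hπ hc hσ
        exact hI.down n k _ _ hπ (contains_rc hc) (conn_rc hσ)
    have hle : ∀ n, (J n).ncard ≤ (I n).ncard := by
      intro n
      apply Set.ncard_le_ncard_of_injOn rc (fun σ hσ => hσ) _ (Set.toFinite _)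
      intro a _ b _ hab
      rw [← rc_rc a, hab, rc_rc]
    have hge : ∀ n, (I n).ncard ≤ (J n).ncard := by
      intro n
      apply Set.ncard_le_ncard_of_injOn rc _ _ (Set.toFinite _)
      · intro σ hσ
        show rc (rc σ) ∈ I n
        rwa [rc_rc]
      · intro a _ b _ hab
        rw [← rc_rc a, hab, rc_rc]
    obtain ⟨K, hK⟩ := bounded_of_avoid hJ (Or.inr (by
      intro n π hπ h
      apply hav n (rc π) hπ
      apply has312_rc
      rwa [rc_rc])) N hN (by have := hle N; omega)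
    exact ⟨K, fun n => (hge n).trans (hK n)⟩
  · exact bounded_of_avoid hI (Or.inr hav) N hN hc
  · exact bounded_of_avoid hI (Or.inl hav) N hN hc

/-- if level `m ≥ 3` avoids one of the patterns and has at most `m - 2` elements, then the
ideal is bounded -/
theorem bounded_of_level {I : ∀ n : ℕ, Set (Perm (Fin n))} (hI : IsIdeal I) (p : Fin 3) (m : ℕ)
    (hm : 3 ≤ m) (hav : ∀ π ∈ I m, ¬ Has p π) (hc : (I m).ncard + 2 ≤ m) :
    ∃ K, ∀ n, (I n).ncard ≤ K := by
  let J : ∀ n : ℕ, Set (Perm (Fin n)) := fun n => {σ | σ ∈ I n ∧ ¬ Has p σ}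
  have hJ : IsIdeal J := by
    constructor
    · intro n π hπ
      exact hI.conn n π hπ.1
    · intro n k π σ hπ hc hσ
      exact ⟨hI.down n k π σ hπ.1 hc hσ, fun h => hπ.2 (has_of_contains p hc h)⟩
  have hJI : ∀ n, J n ⊆ I n := fun n σ hσ => hσ.1
  obtain ⟨K, hK⟩ := bounded_of_avoid3 hJ p (fun n π hπ => hπ.2) m hm
    (by have := Set.ncard_le_ncard (hJI m) (Set.toFinite _); omega)
  have hge : ∀ n, m ≤ n → I n ⊆ J n := by
    intro n hn π hπ
    refine ⟨hπ, fun h => ?_⟩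
    obtain ⟨σ, hσ, hσ2⟩ := has_down hI p π hπ h m hm hn
    exact hav σ hσ hσ2
  refine ⟨K + ∑ j ∈ Finset.range m, (I j).ncard, ?_⟩
  intro n
  rcases Nat.lt_or_ge n m with h | h
  · have := Finset.single_le_sum (f := fun j => (I j).ncard) (fun j _ => Nat.zero_le _)
      (Finset.mem_range.2 h)
    omega
  · have h1 := Set.ncard_le_ncard (hge n h) (Set.toFinite _)
    have h2 := hK n
    omega

/-- an unbounded ideal is nonempty at each level `m ≥ 1` -/
lemma nonempty_of_unbounded {I : ∀ n : ℕ, Set (Perm (Fin n))} (hI : IsIdeal I)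
    (hu : ¬ ∃ K, ∀ n, (I n).ncard ≤ K) (m : ℕ) (hm : 1 ≤ m) : (I m).Nonempty := by
  push Not at hu
  obtain ⟨n, hn⟩ := hu (∑ j ∈ Finset.range m, (I j).ncard)
  have hmn : m ≤ n := by
    by_contra h
    push Not at h
    have := Finset.single_le_sum (f := fun j => (I j).ncard) (fun j _ => Nat.zero_le _)
      (Finset.mem_range.2 h)
    omega
  have hne : (I n).Nonempty := by
    rw [← Set.ncard_pos (Set.toFinite _)]
    omega
  obtain ⟨π, hπ⟩ := hne
  obtain ⟨σ, hσ, _⟩ := ideal_grow hI π hπ {⟨0, by omega⟩} ⟨_, Finset.mem_singleton_self _⟩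
    (by
      intro c h1 h2
      obtain ⟨a, ha, ha2⟩ := h1
      obtain ⟨b, hb, hb2⟩ := h2
      rw [Finset.mem_singleton] at ha hb
      subst ha
      subst hb
      omega) m (by rw [Finset.card_singleton]; exact hm) hmn
  exact ⟨σ, hσ⟩

end Pool.Agent.Work.MP_65ae80_co
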