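import Mathlib
import Pool.Agent.Work.MP_65ae80_co.Grow
import Pool.Agent.Work.MP_65ae80_co.Check

/-! Lower bounds for the levels `4, 5, 6` of an unbounded ideal. -/

namespace Pool.Agent.Work.MP_65ae80_co

open Equiv

lemma blt_iff (a b : ℕ) : Nat.blt a b = true ↔ a < b := by
  rw [Nat.blt, Nat.ble_eq]
  exact Iff.rfl

/-- a permutation as a list -/
def toL {n : ℕ} (π : Perm (Fin n)) : List ℕ := List.ofFn (fun i => (π i : ℕ))

lemma length_toL {n : ℕ} (π : Perm (Fin n)) : (toL π).length = n := by simp [toL]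

lemma toL_getD {n : ℕ} (π : Perm (Fin n)) (i : Fin n) : (toL π).getD i 0 = π i := by
  rw [toL, List.getD_eq_getElem _ _ (by simp)]
  simp

lemma toL_injective {n : ℕ} : Function.Injective (toL (n := n)) := by
  intro π σ h
  ext i
  rw [← toL_getD, ← toL_getD, h]

lemma mem_seqs (n : ℕ) : ∀ l : List ℕ, l.Nodup → (∀ v ∈ l, v < n) → l ∈ seqs n l.length := by
  intro l
  induction l with
  | nil => intro _ _; simp [seqs]
  | cons v l ih =>
    intro h1 h2
    rw [List.nodup_cons] at h1
    rw [List.length_cons, seqs, List.mem_flatMap]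
    refine ⟨l, ih h1.2 (fun x hx => h2 x (List.mem_cons_of_mem _ hx)), ?_⟩
    rw [List.mem_map]
    refine ⟨v, ?_, rfl⟩
    rw [List.mem_filter]
    refine ⟨List.mem_range.2 (h2 v List.mem_cons_self), ?_⟩
    rw [Bool.not_eq_true', List.any_eq_false]
    intro x hx hxv
    have : x = v := Nat.eq_of_beq_eq_true hxv
    rw [this] at hx
    exact h1.1 hx

lemma toL_mem_seqs {n : ℕ} (π : Perm (Fin n)) : toL π ∈ seqs n n := by
  have := mem_seqs n (toL π) ?_ ?_
  · rwa [length_toL] at this
  · rw [toL, List.nodup_ofFn]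
    intro i j hij
    exact π.injective (Fin.ext hij)
  · intro v hv
    rw [toL, List.mem_ofFn] at hv
    obtain ⟨i, rfl⟩ := hv
    exact (π i).2

lemma connAux_iff (l : List ℕ) : ∀ i m : ℕ, connAux l i m = true ↔
    ∀ c < l.length, i + c < m ∨ ∃ a < c, i + c ≤ l.getD a 0 := by
  induction l with
  | nil => intro i m; simp [connAux]
  | cons v l ih =>
    intro i m
    have hb := blt_iff
    have hm : cond (Nat.blt m (v + 1)) (v + 1) m = max m (v + 1) := by
      by_cases h : m < v + 1
      · rw [(hb _ _).2 h, cond_true, max_eq_right h.le]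
      · have : Nat.blt m (v + 1) = false := by
          rw [← Bool.not_eq_true, hb]
          exact h
        rw [this, cond_false, max_eq_left (not_lt.1 h)]
    rw [connAux, hm]
    by_cases h0 : i < m
    · rw [(hb _ _).2 h0, cond_true, ih]
      constructor
      · intro h c hc
        rcases c with _ | c
        · left; omega
        · rw [List.length_cons] at hc
          rcases h c (by omega) with h1 | ⟨a, ha, h1⟩
          · rcases lt_max_iff.1 h1 with h2 | h2
            · left; omega
            · right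
              refine ⟨0, by omega, ?_⟩
              rw [List.getD_cons_zero]
              omega
          · right
            refine ⟨a + 1, by omega, ?_⟩
            rw [List.getD_cons_succ]
            omega
      · intro h c hc
        rcases h (c + 1) (by rw [List.length_cons]; omega) with h1 | ⟨a, ha, h1⟩
        · left
          apply lt_max_of_lt_left
          omega
        · rcases a with _ | a
          · rw [List.getD_cons_zero] at h1
            left
            apply lt_max_of_lt_right
            omega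
          · rw [List.getD_cons_succ] at h1
            right
            exact ⟨a, by omega, by omega⟩
    · have : Nat.blt i m = false := by
        rw [← Bool.not_eq_true, hb]
        exact h0
      rw [this, cond_false]
      constructor
      · intro h
        exact absurd h (by simp)
      · intro h
        exfalso
        rcases h 0 (by simp) with h1 | ⟨a, ha, _⟩
        · exact h0 (by omega)
        · omega

lemma connL_toL {n : ℕ} (π : Perm (Fin n)) : connL (toL π) = true ↔ Conn π := by
  rw [connL, connAux_iff, conn_iff, length_toL]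
  constructor
  · intro h c h0 hn
    rcases h c hn with h1 | ⟨a, ha, h1⟩
    · omega
    · have := toL_getD π ⟨a, by omega⟩
      simp only at this
      rw [this] at h1
      exact ⟨⟨a, by omega⟩, ha, by omega⟩
  · intro h c hc
    rcases Nat.eq_zero_or_pos c with h0 | h0
    · left; omega
    · right
      obtain ⟨a, ha, h1⟩ := h c h0 hc
      refine ⟨a, ha, ?_⟩
      rw [toL_getD]
      omega

/-- delete the entry at position `p` -/
noncomputable def del {n : ℕ} (π : Perm (Fin (n + 1))) (p : Fin (n + 1)) : Perm (Fin n) :=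
  ((finSuccAboveEquiv p).trans
    (π.subtypeEquiv (p := fun x => x ≠ p) (q := fun y => y ≠ π p)
      (fun x => by rw [ne_eq, ne_eq, π.apply_eq_iff_eq]))).trans
    (finSuccAboveEquiv (π p)).symm

lemma del_spec {n : ℕ} (π : Perm (Fin (n + 1))) (p : Fin (n + 1)) (i : Fin n) :
    (π p).succAbove (del π p i) = π (p.succAbove i) := by
  have h : (finSuccAboveEquiv (π p)) (del π p i) = ⟨π (p.succAbove i), by
      rw [ne_eq, π.apply_eq_iff_eq]
      exact Fin.succAbove_ne p i⟩ := by
    simp only [del, Equiv.trans_apply]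
    have := (finSuccAboveEquiv (π p)).apply_symm_apply ⟨π (p.succAbove i), by
      rw [ne_eq, π.apply_eq_iff_eq]
      exact Fin.succAbove_ne p i⟩
    exact this
  have h2 := congrArg Subtype.val h
  simpa [finSuccAboveEquiv_apply] using h2

lemma contains_del {n : ℕ} (π : Perm (Fin (n + 1))) (p : Fin (n + 1)) :
    Contains π (del π p) := by
  refine ⟨p.succAbove, Fin.strictMono_succAbove p, ?_⟩
  intro i j
  rw [← del_spec, ← del_spec, (Fin.strictMono_succAbove (π p)).lt_iff_lt]

lemma toL_del {n : ℕ} (π : Perm (Fin (n + 1))) (p : Fin (n + 1)) :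
    toL (del π p) = delL (toL π) p := by
  have hlen : (delL (toL π) p).length = n := by
    rw [delL, List.length_map, List.length_eraseIdx_of_lt (by rw [length_toL]; exact p.2),
      length_toL]
    omega
  apply List.ext_getElem
  · rw [length_toL, hlen]
  intro i h1 h2
  rw [length_toL] at h1
  have hspec := del_spec π p ⟨i, h1⟩
  have hL : (toL (del π p))[i] = (del π p ⟨i, h1⟩ : ℕ) := by simp [toL]
  rw [hL]
  have hR : (delL (toL π) p)[i] = cond (Nat.blt (π p) (π (p.succAbove ⟨i, h1⟩)))
      ((π (p.succAbove ⟨i, h1⟩) : ℕ) - 1) (π (p.succAbove ⟨i, h1⟩)) := by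
    simp only [delL, List.getElem_map, toL_getD]
    have : ((toL π).eraseIdx p)[i]'(by
        rw [List.length_eraseIdx_of_lt (by rw [length_toL]; exact p.2), length_toL]; omega)
        = (π (p.succAbove ⟨i, h1⟩) : ℕ) := by
      rw [List.getElem_eraseIdx]
      split_ifs with h
      · have h3 : p.succAbove ⟨i, h1⟩ = ⟨i, by omega⟩ := by
          rw [Fin.succAbove_of_castSucc_lt]
          · rfl
          · rw [Fin.lt_def]; exact h
        rw [h3]
        simp only [toL, List.getElem_ofFn]
      · have h3 : p.succAbove ⟨i, h1⟩ = ⟨i + 1, by omega⟩ := by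
          rw [Fin.succAbove_of_le_castSucc]
          · rfl
          · rw [Fin.le_def]; exact not_lt.1 h
        rw [h3]
        simp only [toL, List.getElem_ofFn]
    rw [this]
  rw [hR, ← hspec]
  have hb := blt_iff
  rcases Fin.lt_or_ge (del π p ⟨i, h1⟩).castSucc (π p) with h | h
  · rw [Fin.succAbove_of_castSucc_lt _ _ h]
    have h' : Nat.blt (π p) ((del π p ⟨i, h1⟩).castSucc) = false := by
      rw [← Bool.not_eq_true, hb, not_lt]
      exact h.le
    rw [h', cond_false]
    rfl
  · rw [Fin.succAbove_of_le_castSucc _ _ h]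
    have h' : Nat.blt (π p) ((del π p ⟨i, h1⟩).succ) = true := by
      rw [hb, Fin.val_succ]
      exact Nat.lt_succ_of_le h
    rw [h', cond_true, Fin.val_succ]
    omega

lemma eqL_self (l : List ℕ) : eqL l l = true := by
  induction l with
  | nil => rfl
  | cons a l ih => simp [eqL, ih]

/-- the comparison function of a pattern -/
def rr (p : Fin 3) : ℕ → ℕ → ℕ → Bool := if p = 0 then r231 else if p = 1 then r312 else r321

lemma hasL_toL {n : ℕ} (p : Fin 3) (π : Perm (Fin n)) (h : Has p π) :
    hasL (rr p) (toL π) = true := by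
  have hb := blt_iff
  have key : ∀ (r : ℕ → ℕ → ℕ → Bool) (a b c : Fin n), a < b → b < c → r (π a) (π b) (π c) = true →
      hasL r (toL π) = true := by
    intro r a b c hab hbc hr
    rw [hasL, List.any_eq_true]
    refine ⟨c, by rw [List.mem_range, length_toL]; exact c.2, ?_⟩
    rw [List.any_eq_true]
    refine ⟨b, by rw [List.mem_range]; exact hbc, ?_⟩
    rw [List.any_eq_true]
    refine ⟨a, by rw [List.mem_range]; exact hab, ?_⟩
    rw [toL_getD, toL_getD, toL_getD]
    exact hr
  unfold Has at h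
  unfold rr
  split_ifs at h ⊢ with h0 h1
  · obtain ⟨a, b, c, hab, hbc, h2, h3⟩ := h
    apply key _ a b c hab hbc
    rw [r231, (hb _ _).2 h2, cond_true, (hb _ _).2 h3]
  · obtain ⟨a, b, c, hab, hbc, h2, h3⟩ := h
    apply key _ a b c hab hbc
    rw [r312, (hb _ _).2 h2, cond_true, (hb _ _).2 h3]
  · obtain ⟨a, b, c, hab, hbc, h2, h3⟩ := h
    apply key _ a b c hab hbc
    rw [r321, (hb _ _).2 h2, cond_true, (hb _ _).2 h3]

lemma kids_toL {I : ∀ n : ℕ, Set (Perm (Fin n))} (hI : IsIdeal I) {n : ℕ}
    (π : Perm (Fin (n + 1))) (hπ : π ∈ I (n + 1)) (c : List ℕ) (hc : c ∈ kids (toL π)) :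
    ∃ σ ∈ I n, toL σ = c := by
  rw [kids, List.mem_filter, List.mem_map] at hc
  obtain ⟨⟨p, hp, rfl⟩, hconn⟩ := hc
  rw [List.mem_range, length_toL] at hp
  have h1 := toL_del π ⟨p, hp⟩
  simp only at h1
  rw [← h1] at hconn ⊢
  exact ⟨del π ⟨p, hp⟩, hI.down _ _ _ _ hπ (contains_del π _) ((connL_toL _).1 hconn), rfl⟩

lemma two_le {I : ∀ n : ℕ, Set (Perm (Fin n))} (hI : IsIdeal I)
    (hu : ¬ ∃ K, ∀ n, (I n).ncard ≤ K) (m : ℕ) (hm : 3 ≤ m)
    (hchk : ∀ π : Perm (Fin (m + 1)), Conn π → chk1 (toL π) = true) : 2 ≤ (I m).ncard := by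
  by_contra hcon
  push Not at hcon
  have hle : (I m).ncard ≤ 1 := by omega
  have hone : ∀ σ τ, σ ∈ I m → τ ∈ I m → σ = τ := by
    intro σ τ hσ hτ
    exact (Set.ncard_le_one_iff (Set.toFinite _)).1 hle hσ hτ
  have hhas : ∀ p : Fin 3, ∃ σ ∈ I m, Has p σ := by
    intro p
    by_contra h
    push Not at h
    exact hu (bounded_of_level hI p m hm h (by omega))
  obtain ⟨π, hπ⟩ := nonempty_of_unbounded hI hu (m + 1) (by omega)
  have h1 := hchk π (hI.conn _ _ hπ)
  have hk := kids_toL hI π hπ
  unfold chk1 at h1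
  split at h1
  · exact absurd h1 (by simp)
  · rename_i c rest heq
    rw [heq] at hk
    obtain ⟨σ, hσ, hσc⟩ := hk c List.mem_cons_self
    rw [Bool.or_eq_true] at h1
    rcases h1 with h1 | h1
    · rw [List.any_eq_true] at h1
      obtain ⟨d, hd, hd2⟩ := h1
      obtain ⟨τ, hτ, hτd⟩ := hk d (List.mem_cons_of_mem _ hd)
      have := hone σ τ hσ hτ
      rw [← hτd, ← hσc, this, eqL_self] at hd2
      exact absurd hd2 (by simp)
    · have hall : ∀ p : Fin 3, hasL (rr p) c = true := by
        intro p
        obtain ⟨τ, hτ, hτp⟩ := hhas p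
        have := hone σ τ hσ hτ
        rw [← hσc, this]
        exact hasL_toL p τ hτp
      have a0 : hasL r231 c = true := hall 0
      have a1 : hasL r312 c = true := hall 1
      have a2 : hasL r321 c = true := hall 2
      rw [a0, a1, a2] at h1
      exact absurd h1 (by simp)

lemma chk_of_check (n : ℕ) (h : ((seqs n n).all fun l => !(connL l) || chk1 l) = true)
    (π : Perm (Fin n)) (hπ : Conn π) : chk1 (toL π) = true := by
  rw [List.all_eq_true] at h
  have := h (toL π) (toL_mem_seqs π)
  rw [(connL_toL π).2 hπ] at this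
  simpa using this

lemma two_le_five {I : ∀ n : ℕ, Set (Perm (Fin n))} (hI : IsIdeal I)
    (hu : ¬ ∃ K, ∀ n, (I n).ncard ≤ K) : 2 ≤ (I 5).ncard :=
  two_le hI hu 5 (by norm_num) (chk_of_check 6 check6)

lemma two_le_six {I : ∀ n : ℕ, Set (Perm (Fin n))} (hI : IsIdeal I)
    (hu : ¬ ∃ K, ∀ n, (I n).ncard ≤ K) : 2 ≤ (I 6).ncard :=
  two_le hI hu 6 (by norm_num) (chk_of_check 7 check7)

lemma three_le_four {I : ∀ n : ℕ, Set (Perm (Fin n))} (hI : IsIdeal I)
    (hu : ¬ ∃ K, ∀ n, (I n).ncard ≤ K) : 3 ≤ (I 4).ncard := by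
  classical
  by_contra hcon
  push Not at hcon
  obtain ⟨q, hq⟩ := nonempty_of_unbounded hI hu 4 (by norm_num)
  -- at most two elements
  obtain ⟨q1, q2, hq1, hq2, hall⟩ : ∃ q1 q2, q1 ∈ I 4 ∧ q2 ∈ I 4 ∧
      ∀ σ ∈ I 4, σ = q1 ∨ σ = q2 := by
    have hpos : 0 < (I 4).ncard := (Set.ncard_pos (Set.toFinite _)).2 ⟨q, hq⟩
    have h12 : (I 4).ncard = 1 ∨ (I 4).ncard = 2 := by omega
    rcases h12 with h | h
    · rw [Set.ncard_eq_one] at h
      obtain ⟨a, ha⟩ := h
      rw [ha]
      exact ⟨a, a, rfl, rfl, fun σ hσ => Or.inl hσ⟩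
    · rw [Set.ncard_eq_two] at h
      obtain ⟨a, b, _, ha⟩ := h
      rw [ha]
      exact ⟨a, b, by simp, by simp, fun σ hσ => by simpa using hσ⟩
  have h1 := check45
  rw [List.all_eq_true] at h1
  have h2 := h1 (toL q1) (List.mem_filter.2 ⟨toL_mem_seqs q1, (connL_toL q1).2 (hI.conn _ _ hq1)⟩)
  rw [List.all_eq_true] at h2
  have h3 := h2 (toL q2) (List.mem_filter.2 ⟨toL_mem_seqs q2, (connL_toL q2).2 (hI.conn _ _ hq2)⟩)
  have hcl : ∀ π ∈ I 5, toL π ∈ cl5 (toL q1) (toL q2) := by
    intro π hπ
    rw [cl5, List.mem_filter]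
    refine ⟨List.mem_filter.2 ⟨toL_mem_seqs π, (connL_toL π).2 (hI.conn _ _ hπ)⟩, ?_⟩
    rw [List.all_eq_true]
    intro c hc
    obtain ⟨σ, hσ, hσc⟩ := kids_toL hI π hπ c hc
    rw [← hσc]
    rcases hall σ hσ with h | h
    · rw [h, eqL_self, Bool.true_or]
    · rw [h, eqL_self, Bool.or_true]
  have hlen : (I 5).ncard ≤ (cl5 (toL q1) (toL q2)).length := by
    refine le_trans ?_ (List.toFinset_card_le _)
    rw [← Set.ncard_coe_finset]
    apply Set.ncard_le_ncard_of_injOn toL _ (toL_injective.injOn) (Set.toFinite _)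
    intro π hπ
    simpa using hcl π hπ
  rw [chkQ, Bool.or_eq_true] at h3
  rcases h3 with h3 | h3
  · have := Nat.le_of_ble_eq_true h3
    have := two_le_five hI hu
    omega
  · rw [Bool.and_eq_true] at h3
    have h4 := Nat.le_of_ble_eq_true h3.1
    have h5 := h3.2
    have hfin : ∀ p : Fin 3, (cl5 (toL q1) (toL q2)).all (fun l => !(hasL (rr p) l)) = true →
        False := by
      intro p hp
      rw [List.all_eq_true] at hp
      apply hu
      apply bounded_of_level hI p 5 (by norm_num) _ (by omega)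
      intro π hπ hhas
      have := hp (toL π) (hcl π hπ)
      rw [hasL_toL p π hhas] at this
      exact absurd this (by simp)
    rw [Bool.or_eq_true, Bool.or_eq_true] at h5
    rcases h5 with h5 | h5 | h5
    · exact hfin 0 h5
    · exact hfin 1 h5
    · exact hfin 2 h5

end Pool.Agent.Work.MP_65ae80_co
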