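import Mathlib
import Pool.Agent.Work.MP_65ae80_co.Levels

/-! Growth of sum closed classes with unboundedly many indecomposables. -/

namespace Pool.Agent.Work.MP_65ae80_co

open Equiv Filter Topology

lemma dsum_castAdd {a b : ℕ} (α : Perm (Fin a)) (β : Perm (Fin b)) (i : Fin a) :
    dsum α β (Fin.castAdd b i) = Fin.castAdd b (α i) := by
  simp [dsum]

lemma dsum_natAdd {a b : ℕ} (α : Perm (Fin a)) (β : Perm (Fin b)) (i : Fin b) :
    dsum α β (Fin.natAdd a i) = Fin.natAdd a (β i) := by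
  simp [dsum]

/-- values of a permutation of some length -/
def sval (x : Σ m : ℕ, Perm (Fin m)) (i : ℕ) : ℕ := if h : i < x.1 then (x.2 ⟨i, h⟩ : ℕ) else 0

lemma sval_left {a b : ℕ} (α : Perm (Fin a)) (β : Perm (Fin b)) (i : Fin a) :
    sval ⟨a + b, dsum α β⟩ i = α i := by
  have h : (i : ℕ) < a + b := by have := i.2; omega
  rw [sval, dif_pos h]
  have : (⟨(i : ℕ), h⟩ : Fin (a + b)) = Fin.castAdd b i := rfl
  rw [this, dsum_castAdd]
  rfl

lemma dsum_injective {a b : ℕ} {α α' : Perm (Fin a)} {β β' : Perm (Fin b)}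
    (h : dsum α β = dsum α' β') : α = α' ∧ β = β' := by
  constructor
  · ext i
    have := congrArg (fun f : Perm (Fin (a + b)) => (f (Fin.castAdd b i) : ℕ)) h
    simpa [dsum_castAdd] using this
  · ext i
    have := congrArg (fun f : Perm (Fin (a + b)) => (f (Fin.natAdd a i) : ℕ)) h
    simpa [dsum_natAdd] using this

lemma indecomposable_iff {n : ℕ} (π : Perm (Fin n)) : Indecomposable π ↔ Conn π := by
  constructor
  · intro h
    rw [conn_iff]
    by_contra hcon
    push Not at hcon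
    obtain ⟨c, h0, hn, hc⟩ := hcon
    obtain ⟨d, rfl⟩ : ∃ d, n = c + d := ⟨n - c, by omega⟩
    apply h
    let ρ : Perm (Fin c ⊕ Fin d) := (finSumFinEquiv.trans π).trans finSumFinEquiv.symm
    have hmaps : Set.MapsTo ρ (Set.range Sum.inl) (Set.range Sum.inl) := by
      rintro _ ⟨i, rfl⟩
      have h1 : (π (Fin.castAdd d i) : ℕ) < c := hc _ i.2
      refine ⟨⟨π (Fin.castAdd d i), h1⟩, ?_⟩
      simp only [ρ, Equiv.trans_apply, finSumFinEquiv_apply_left]
      rw [Equiv.eq_symm_apply, finSumFinEquiv_apply_left]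
      rfl
    obtain ⟨⟨α, β⟩, hαβ⟩ := Equiv.Perm.mem_sumCongrHom_range_of_perm_mapsTo_inl hmaps
    refine ⟨c, d, α, β, h0, by omega, ?_⟩
    congr 1
    have h2 : dsum α β = (finSumFinEquiv.symm.trans ρ).trans finSumFinEquiv := by
      rw [← hαβ]
      rfl
    rw [h2]
    ext i
    simp [ρ]
  · intro h hcon
    obtain ⟨a, b, α, β, ha, hb, heq⟩ := hcon
    obtain ⟨h1, h2⟩ := Sigma.mk.inj_iff.1 heq
    subst h1
    have h3 := eq_of_heq h2
    rw [h3, conn_iff] at h
    obtain ⟨x, hx, hx2⟩ := h a ha (by omega)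
    have h4 : x = Fin.castAdd b ⟨x, hx⟩ := rfl
    rw [h4, dsum_castAdd] at hx2
    have := (α ⟨x, hx⟩).2
    simp only [Fin.val_castAdd] at hx2
    omega

lemma isIdeal_ind {C : ∀ n : ℕ, Set (Perm (Fin n))} (hC : IsClass C) : IsIdeal (ind C) := by
  constructor
  · intro n π hπ
    exact (indecomposable_iff π).1 hπ.2
  · intro n k π σ hπ hc hσ
    exact ⟨hC n k π σ hπ.1 hc, (indecomposable_iff σ).2 hσ⟩

/-- renewal inequality -/
lemma renewal {C : ∀ n : ℕ, Set (Perm (Fin n))} (hs : SumClosed C) (n : ℕ) :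
    ∑ j ∈ Finset.range (n + 1), (ind C (j + 1)).ncard * (C (n - j)).ncard
      ≤ (C (n + 1)).ncard := by
  classical
  let S : Finset (Σ j : ℕ, Perm (Fin (j + 1)) × Perm (Fin (n - j))) :=
    (Finset.range (n + 1)).sigma
      (fun j => (Set.toFinite (ind C (j + 1) ×ˢ C (n - j))).toFinset)
  have hcard : S.card
      = ∑ j ∈ Finset.range (n + 1), (ind C (j + 1)).ncard * (C (n - j)).ncard := by
    rw [Finset.card_sigma]
    apply Finset.sum_congr rfl
    intro j _
    rw [← Set.ncard_eq_toFinset_card, Set.ncard_prod]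
  let T : Finset (Σ m : ℕ, Perm (Fin m)) :=
    (Set.toFinite (C (n + 1))).toFinset.image (fun π => ⟨n + 1, π⟩)
  have hT : T.card ≤ (C (n + 1)).ncard := by
    refine Finset.card_image_le.trans ?_
    rw [← Set.ncard_eq_toFinset_card]
  let f : (Σ j : ℕ, Perm (Fin (j + 1)) × Perm (Fin (n - j))) → (Σ m : ℕ, Perm (Fin m)) :=
    fun x => ⟨(x.1 + 1) + (n - x.1), dsum x.2.1 x.2.2⟩
  have hmem : ∀ x ∈ S, f x ∈ T := by
    rintro ⟨j, σ, β⟩ hx
    rw [Finset.mem_sigma] at hx
    obtain ⟨h1, h2⟩ := hx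
    simp only [Finset.mem_range, Set.Finite.mem_toFinset, Set.mem_prod] at h1 h2
    have h3 : dsum σ β ∈ C (j + 1 + (n - j)) := hs _ _ σ β h2.1.1 h2.2
    have h4 : j + 1 + (n - j) = n + 1 := by omega
    simp only [f, T]
    generalize dsum σ β = ρ at h3 ⊢
    revert ρ
    rw [h4]
    intro ρ hρ
    rw [Finset.mem_image]
    exact ⟨ρ, by rw [Set.Finite.mem_toFinset]; exact hρ, rfl⟩
  have hinj : Set.InjOn f (S : Set _) := by
    -- lengths agree
    have key : ∀ x ∈ S, ∀ y ∈ S, f x = f y → ¬ x.1 < y.1 := by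
      rintro ⟨j, σ, β⟩ hx ⟨j', σ', β'⟩ hy hxy hlt
      simp only at hlt
      rw [Finset.mem_sigma] at hx hy
      simp only [Finset.mem_range, Set.Finite.mem_toFinset, Set.mem_prod] at hx hy
      have hconn : Conn σ' := (indecomposable_iff σ').1 hy.2.1.2
      rw [conn_iff] at hconn
      obtain ⟨a, ha, ha2⟩ := hconn (j + 1) (by omega) (by omega)
      have h1 := sval_left σ' β' a
      have h2 := sval_left σ β ⟨a, ha⟩
      have h3 : sval (f ⟨j, σ, β⟩) a = sval (f ⟨j', σ', β'⟩) a := by rw [hxy]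
      simp only [f] at h3
      simp only at h2
      rw [h1, h2] at h3
      have := (σ ⟨a, ha⟩).2
      omega
    rintro ⟨j, σ, β⟩ hx ⟨j', σ', β'⟩ hy hxy
    have h1 := key _ hx _ hy hxy
    have h2 := key _ hy _ hx hxy.symm
    simp only at h1 h2
    have h3 : j = j' := by omega
    subst h3
    simp only [f] at hxy
    have h4 := eq_of_heq (Sigma.mk.inj_iff.1 hxy).2
    obtain ⟨h5, h6⟩ := dsum_injective h4
    rw [h5, h6]
  rw [← hcard]
  exact (Finset.card_le_card_of_injOn f hmem hinj).trans hT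

/-- growth from a renewal inequality -/
lemma growth_lower (a s : ℕ → ℝ) (ha0 : 1 ≤ a 0) (hs0 : ∀ n, 0 ≤ s n) (hs1 : 1 ≤ s 1)
    (hrec : ∀ n, ∑ j ∈ Finset.range (n + 1), s (j + 1) * a (n - j) ≤ a (n + 1))
    (y : ℝ) (hy0 : 0 < y) (hy1 : y ≤ 1) (J : ℕ)
    (hJ : 1 ≤ ∑ j ∈ Finset.range J, s (j + 1) * y ^ (j + 1)) :
    ∀ n, y ^ J ≤ a n * y ^ n := by
  have ha1 : ∀ n, 1 ≤ a n := by
    intro n
    induction n using Nat.strong_induction_on with
    | _ n ih =>
      rcases n with _ | n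
      · exact ha0
      · refine le_trans ?_ (hrec n)
        have h1 : s (0 + 1) * a (n - 0) ≤ ∑ j ∈ Finset.range (n + 1), s (j + 1) * a (n - j) :=
          Finset.single_le_sum (f := fun j => s (j + 1) * a (n - j))
            (fun j hj => mul_nonneg (hs0 _) (by
              have := ih (n - j) (by omega)
              linarith)) (Finset.mem_range.2 (Nat.succ_pos n))
        refine le_trans ?_ h1
        have h2 := ih (n - 0) (by omega)
        have h3 : s (0 + 1) = s 1 := rfl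
        rw [h3]
        nlinarith
  intro n
  induction n using Nat.strong_induction_on with
  | _ n ih =>
    rcases Nat.lt_or_ge n J with h | h
    · have h1 : y ^ J ≤ y ^ n := pow_le_pow_of_le_one hy0.le hy1 h.le
      have h2 : 0 < y ^ n := by positivity
      have h3 := ha1 n
      nlinarith
    · rcases n with _ | n
      · have hJ0 : J = 0 := by omega
        subst hJ0
        simp at hJ
        linarith
      · have h1 : ∑ j ∈ Finset.range J, s (j + 1) * a (n - j)
            ≤ ∑ j ∈ Finset.range (n + 1), s (j + 1) * a (n - j) := by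
          apply Finset.sum_le_sum_of_subset_of_nonneg
          · intro j hj
            rw [Finset.mem_range] at hj ⊢
            omega
          · intro j _ _
            exact mul_nonneg (hs0 _) (by have := ha1 (n - j); linarith)
        have h2 : y ^ J * ∑ j ∈ Finset.range J, s (j + 1) * y ^ (j + 1)
            ≤ (∑ j ∈ Finset.range J, s (j + 1) * a (n - j)) * y ^ (n + 1) := by
          rw [Finset.mul_sum, Finset.sum_mul]
          apply Finset.sum_le_sum
          intro j hj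
          rw [Finset.mem_range] at hj
          have h3 := ih (n - j) (by omega)
          have h4 : y ^ (n + 1) = y ^ (n - j) * y ^ (j + 1) := by
            rw [← pow_add]
            congr 1
            omega
          rw [h4]
          have h5 : 0 ≤ s (j + 1) * y ^ (j + 1) := mul_nonneg (hs0 _) (by positivity)
          calc y ^ J * (s (j + 1) * y ^ (j + 1)) ≤ (a (n - j) * y ^ (n - j)) *
                (s (j + 1) * y ^ (j + 1)) := mul_le_mul_of_nonneg_right h3 h5
            _ = s (j + 1) * a (n - j) * (y ^ (n - j) * y ^ (j + 1)) := by ring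
        have h3 : 0 < y ^ J := by positivity
        have h4 : 0 < y ^ (n + 1) := by positivity
        calc y ^ J = y ^ J * 1 := by ring
          _ ≤ y ^ J * ∑ j ∈ Finset.range J, s (j + 1) * y ^ (j + 1) :=
              mul_le_mul_of_nonneg_left hJ h3.le
          _ ≤ (∑ j ∈ Finset.range J, s (j + 1) * a (n - j)) * y ^ (n + 1) := h2
          _ ≤ a (n + 1) * y ^ (n + 1) :=
              mul_le_mul_of_nonneg_right (h1.trans (hrec n)) h4.le

/-- from exponential lower bounds to `n`-th roots -/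
lemma root_lower (a : ℕ → ℝ) (K c c' : ℝ) (hK : 0 < K) (hc : 0 < c) (hcc : c' < c)
    (h : ∀ n, K * c ^ n ≤ a n) : ∀ᶠ n : ℕ in atTop, c' < a n ^ ((1 : ℝ) / n) := by
  have h1 : Tendsto (fun n : ℕ => K ^ ((1 : ℝ) / n) * c) atTop (𝓝 (K ^ (0 : ℝ) * c)) := by
    apply Tendsto.mul_const
    apply Tendsto.rpow tendsto_const_nhds tendsto_one_div_atTop_nhds_zero_nat
    left
    exact hK.ne'
  rw [Real.rpow_zero, one_mul] at h1
  have h2 := h1.eventually (lt_mem_nhds hcc)
  filter_upwards [h2, eventually_gt_atTop 0] with n hn hn0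
  refine lt_of_lt_of_le hn ?_
  have hn' : (n : ℝ) ≠ 0 := by positivity
  have h3 : K ^ ((1 : ℝ) / n) * c = (K * c ^ n) ^ ((1 : ℝ) / n) := by
    rw [Real.mul_rpow hK.le (by positivity), ← Real.rpow_natCast c n, ← Real.rpow_mul hc.le,
      mul_one_div_cancel hn', Real.rpow_one]
  rw [h3]
  exact Real.rpow_le_rpow (by positivity) (h n) (by positivity)

/-- a series bound used when one of the patterns is missing -/
lemma partial_series (y : ℝ) (hy0 : 0 < y) (hy1 : y < 1) (hy : (1 - y) ^ 3 < y ^ 2) :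
    ∃ N : ℕ, 1 ≤ N ∧ (1 - y) / y < ∑ j ∈ Finset.range N, (j : ℝ) * y ^ j := by
  have h1 := hasSum_coe_mul_geometric_of_norm_lt_one (𝕜 := ℝ) (r := y)
    (by rw [Real.norm_eq_abs, abs_of_pos hy0]; exact hy1)
  have h2 := h1.tendsto_sum_nat
  have h3 : (1 - y) / y < y / (1 - y) ^ 2 := by
    rw [div_lt_div_iff₀ hy0 (by have : 0 < 1 - y := by linarith
                                positivity)]
    nlinarith
  have h4 := h2.eventually (lt_mem_nhds h3)
  obtain ⟨N, hN1, hN2⟩ := (h4.and (eventually_ge_atTop 1)).exists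
  exact ⟨N, hN2, hN1⟩

/-- the key inequality for unbounded ideals -/
lemma ideal_sum {I : ∀ n : ℕ, Set (Perm (Fin n))} (hI : IsIdeal I)
    (hu : ¬ ∃ K, ∀ n, (I n).ncard ≤ K) (y : ℝ) (hy0 : 43 / 100 ≤ y) (hy1 : y < 1)
    (hy : (1 - y) ^ 3 < y ^ 2) :
    ∃ J : ℕ, 1 ≤ ∑ j ∈ Finset.range J, ((I (j + 1)).ncard : ℝ) * y ^ (j + 1) := by
  have hypos : 0 < y := by linarith
  have hne : ∀ m, 1 ≤ m → 1 ≤ (I m).ncard := by
    intro m hm
    exact (Set.ncard_pos (Set.toFinite _)).2 (nonempty_of_unbounded hI hu m hm)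
  by_cases hA : ∃ p : Fin 3, ∀ n, ∀ π ∈ I n, ¬ Has p π
  · obtain ⟨p, hp⟩ := hA
    have hlow : ∀ N, 3 ≤ N → N ≤ (I N).ncard + 1 := by
      intro N hN
      by_contra hcon
      exact hu (bounded_of_avoid3 hI p hp N hN (by omega))
    obtain ⟨N, hN1, hN2⟩ := partial_series y hypos hy1 hy
    refine ⟨N, ?_⟩
    have hterm : ∀ j ∈ Finset.range N, ((j : ℝ) * y ^ j + (if j = 0 then 1 else 0)) * y
        ≤ ((I (j + 1)).ncard : ℝ) * y ^ (j + 1) := by
      intro j _
      rcases j with _ | _ | j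
      · have : (1 : ℝ) ≤ ((I (0 + 1)).ncard : ℝ) := by exact_mod_cast hne (0 + 1) (by norm_num)
        simp only [Nat.cast_zero, zero_mul, if_true, zero_add, one_mul, pow_one]
        nlinarith
      · have : (1 : ℝ) ≤ ((I (0 + 1 + 1)).ncard : ℝ) := by
          exact_mod_cast hne (0 + 1 + 1) (by norm_num)
        simp only [zero_add, Nat.cast_one, one_mul, pow_one, one_ne_zero, if_false, add_zero]
        have h2 : y * y = y ^ (1 + 1) := by ring
        rw [h2]
        have h3 : 0 < y ^ (1 + 1) := by positivity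
        nlinarith
      · have h1 := hlow (j + 1 + 1 + 1) (by omega)
        have h2 : ((j + 1 + 1 : ℕ) : ℝ) ≤ ((I (j + 1 + 1 + 1)).ncard : ℝ) := by
          exact_mod_cast (by omega : j + 1 + 1 ≤ (I (j + 1 + 1 + 1)).ncard)
        have h3 : (if j + 1 + 1 = 0 then (1 : ℝ) else 0) = 0 := by simp
        rw [h3, add_zero]
        calc ((j + 1 + 1 : ℕ) : ℝ) * y ^ (j + 1 + 1) * y
            = ((j + 1 + 1 : ℕ) : ℝ) * y ^ (j + 1 + 1 + 1) := by ring
          _ ≤ ((I (j + 1 + 1 + 1)).ncard : ℝ) * y ^ (j + 1 + 1 + 1) :=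
              mul_le_mul_of_nonneg_right h2 (by positivity)
    refine le_trans ?_ (Finset.sum_le_sum hterm)
    rw [← Finset.sum_mul, Finset.sum_add_distrib, Finset.sum_ite_eq' (Finset.range N) 0,
      if_pos (Finset.mem_range.2 (by omega))]
    rw [div_lt_iff₀ hypos] at hN2
    nlinarith
  · push Not at hA
    have hthree : 3 ≤ (I 3).ncard := by
      have hmem : ∀ p : Fin 3, ∃ σ ∈ I 3, Has p σ := by
        intro p
        obtain ⟨n, π, hπ, hp⟩ := hA p
        have hn : 3 ≤ n := by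
          have hx : ∃ a b c : Fin n, a < b ∧ b < c := by
            unfold Has at hp
            split_ifs at hp with h0 h1
            · obtain ⟨a, b, c, h1, h2, _⟩ := hp
              exact ⟨a, b, c, h1, h2⟩
            · obtain ⟨a, b, c, h1, h2, _⟩ := hp
              exact ⟨a, b, c, h1, h2⟩
            · obtain ⟨a, b, c, h1, h2, _⟩ := hp
              exact ⟨a, b, c, h1, h2⟩
          obtain ⟨a, b, c, h1, h2⟩ := hx
          rw [Fin.lt_def] at h1 h2
          have := c.2
          omega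
        exact has_down hI p π hπ hp 3 le_rfl hn
      choose σ hσ1 hσ2 using hmem
      have hinj : Function.Injective σ := by
        intro p q hpq
        have h1 := hσ2 p
        have h2 := hσ2 q
        rw [hpq] at h1
        generalize σ q = τ at h1 h2
        have habc : ∀ (a b c : Fin 3), a < b → b < c → a = 0 ∧ b = 1 ∧ c = 2 := by decide
        have red : ∀ p : Fin 3, Has p τ → (p = 0 ∧ τ 2 < τ 0 ∧ τ 0 < τ 1) ∨
            (p = 1 ∧ τ 1 < τ 2 ∧ τ 2 < τ 0) ∨ (p = 2 ∧ τ 2 < τ 1 ∧ τ 1 < τ 0) := by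
          intro p hp
          unfold Has at hp
          split_ifs at hp with h0 h1
          · obtain ⟨a, b, c, hab, hbc, h3, h4⟩ := hp
            obtain ⟨rfl, rfl, rfl⟩ := habc a b c hab hbc
            exact Or.inl ⟨h0, h3, h4⟩
          · obtain ⟨a, b, c, hab, hbc, h3, h4⟩ := hp
            obtain ⟨rfl, rfl, rfl⟩ := habc a b c hab hbc
            exact Or.inr (Or.inl ⟨h1, h3, h4⟩)
          · obtain ⟨a, b, c, hab, hbc, h3, h4⟩ := hp
            obtain ⟨rfl, rfl, rfl⟩ := habc a b c hab hbc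
            refine Or.inr (Or.inr ⟨?_, h3, h4⟩)
            omega
        rcases red p h1 with ⟨a1, a2, a3⟩ | ⟨a1, a2, a3⟩ | ⟨a1, a2, a3⟩ <;>
        rcases red q h2 with ⟨b1, b2, b3⟩ | ⟨b1, b2, b3⟩ | ⟨b1, b2, b3⟩ <;>
        first
          | (exfalso; rw [Fin.lt_def] at a2 a3 b2 b3; omega)
          | (rw [a1, b1])
      have h3 : (Set.range σ).ncard = 3 := by
        rw [← Set.image_univ, Set.ncard_image_of_injective _ hinj, Set.ncard_univ]
        simp
      have h4 : (Set.range σ).ncard ≤ (I 3).ncard := by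
        apply Set.ncard_le_ncard _ (Set.toFinite _)
        rintro _ ⟨p, rfl⟩
        exact hσ1 p
      omega
    refine ⟨7, ?_⟩
    have s1 : (1 : ℝ) ≤ ((I 1).ncard : ℝ) := by exact_mod_cast hne 1 (by norm_num)
    have s2 : (1 : ℝ) ≤ ((I 2).ncard : ℝ) := by exact_mod_cast hne 2 (by norm_num)
    have s3 : (3 : ℝ) ≤ ((I 3).ncard : ℝ) := by exact_mod_cast hthree
    have s4 : (3 : ℝ) ≤ ((I 4).ncard : ℝ) := by exact_mod_cast three_le_four hI hu
    have s5 : (2 : ℝ) ≤ ((I 5).ncard : ℝ) := by exact_mod_cast two_le_five hI hu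
    have s6 : (2 : ℝ) ≤ ((I 6).ncard : ℝ) := by exact_mod_cast two_le_six hI hu
    have s7 : (1 : ℝ) ≤ ((I 7).ncard : ℝ) := by exact_mod_cast hne 7 (by norm_num)
    have hp : ∀ k : ℕ, (43 / 100 : ℝ) ^ k ≤ y ^ k := fun k =>
      pow_le_pow_left₀ (by norm_num) hy0 k
    have ht : ∀ (k : ℕ) (s t : ℝ), t ≤ s → 0 ≤ t → t * (43 / 100 : ℝ) ^ k ≤ s * y ^ k := by
      intro k s t h1 h2
      exact mul_le_mul h1 (hp k) (by positivity) (h2.trans h1)
    simp only [Finset.sum_range_succ, Finset.sum_range_zero, zero_add]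
    have t1 := ht 1 _ _ s1 (by norm_num)
    have t2 := ht 2 _ _ s2 (by norm_num)
    have t3 := ht 3 _ _ s3 (by norm_num)
    have t4 := ht 4 _ _ s4 (by norm_num)
    have t5 := ht 5 _ _ s5 (by norm_num)
    have t6 := ht 6 _ _ s6 (by norm_num)
    have t7 := ht 7 _ _ s7 (by norm_num)
    norm_num at t1 t2 t3 t4 t5 t6 t7 ⊢
    linarith

/-- the threshold theorem -/
theorem threshold (C : ∀ n : ℕ, Set (Perm (Fin n))) (hC : IsClass C) (hs : SumClosed C)
    (hu : ∀ B : ℕ, ∃ n, B < (ind C n).ncard) (τ : ℝ) (hτ0 : 0 < τ)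
    (hτ : τ ^ 3 - 3 * τ ^ 2 + 2 * τ - 1 = 0) (c : ℝ) (hc : c < τ) :
    ∀ᶠ n : ℕ in atTop, c < ((C n).ncard : ℝ) ^ ((1 : ℝ) / n) := by
  have hτ2 : 2 < τ := by
    by_contra h
    push Not at h
    rcases le_or_gt τ 1 with h1 | h1
    · nlinarith [mul_nonneg hτ0.le (sub_nonneg.2 h1), sq_nonneg (τ - 1), sq_nonneg τ,
        mul_nonneg (mul_nonneg hτ0.le (sub_nonneg.2 h1)) hτ0.le]
    · nlinarith [mul_nonneg (mul_nonneg hτ0.le (sub_nonneg.2 h1.le)) (sub_nonneg.2 h)]
  have hτ3 : τ < 100 / 43 := by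
    by_contra h
    push Not at h
    nlinarith [mul_nonneg (sub_nonneg.2 h) (sub_nonneg.2 h), mul_nonneg (sub_nonneg.2 h) hτ0.le,
      mul_nonneg (mul_nonneg (sub_nonneg.2 h) hτ0.le) hτ0.le]
  -- an intermediate value
  obtain ⟨d, hd1, hd2⟩ := exists_between (max_lt hc hτ2)
  have hdc : c < d := lt_of_le_of_lt (le_max_left _ _) hd1
  have hd2' : 2 < d := lt_of_le_of_lt (le_max_right _ _) hd1
  have hdpoly : d ^ 3 - 3 * d ^ 2 + 2 * d - 1 < 0 := by
    have h1 : 0 < τ - d := by linarith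
    have h2 : 0 < d - 2 := by linarith
    nlinarith [mul_pos h1 h2, mul_pos (mul_pos h1 h2) (by linarith : (0:ℝ) < d),
      mul_pos h1 h1, mul_pos (mul_pos h1 h1) (by linarith : (0:ℝ) < d),
      mul_pos (mul_pos h1 h1) h1]
  have hdpos : 0 < d := by linarith
  set y := 1 / d with hy
  have hypos : 0 < y := by positivity
  have hyd : y * d = 1 := by rw [hy]; field_simp
  have hy1 : y < 1 := by
    rw [hy, div_lt_one hdpos]
    linarith
  have hy0 : 43 / 100 ≤ y := by
    rw [hy, le_div_iff₀ hdpos]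
    linarith
  have hy3 : (1 - y) ^ 3 < y ^ 2 := by
    have h1 : (1 - y) = (d - 1) * y := by
      have : (d - 1) * y = y * d - y := by ring
      rw [this, hyd]
    have h2 : (1 - y) ^ 3 = (d - 1) ^ 3 * y ^ 3 := by rw [h1]; ring
    have h3 : y ^ 2 = d * y ^ 3 := by
      have : d * y ^ 3 = (y * d) * y ^ 2 := by ring
      rw [this, hyd, one_mul]
    rw [h2, h3]
    apply mul_lt_mul_of_pos_right _ (by positivity)
    nlinarith
  have hI := isIdeal_ind hC
  have hu' : ¬ ∃ K, ∀ n, (ind C n).ncard ≤ K := by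
    rintro ⟨K, hK⟩
    obtain ⟨n, hn⟩ := hu K
    exact absurd (hK n) (not_le.2 hn)
  obtain ⟨J, hJ⟩ := ideal_sum hI hu' y hy0 hy1 hy3
  have ha0 : (1 : ℝ) ≤ ((C 0).ncard : ℝ) := by
    have h1 : 0 < (C 0).ncard := by
      rw [Set.ncard_pos (Set.toFinite _)]
      obtain ⟨σ, hσ⟩ := nonempty_of_unbounded hI hu' 1 le_rfl
      exact ⟨1, hC 1 0 σ 1 hσ.1 ⟨Fin.elim0, fun i => i.elim0, fun i => i.elim0⟩⟩
    exact_mod_cast h1
  have hs1 : (1 : ℝ) ≤ ((ind C 1).ncard : ℝ) := by
    have h1 : 0 < (ind C 1).ncard := by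
      rw [Set.ncard_pos (Set.toFinite _)]
      exact nonempty_of_unbounded hI hu' 1 le_rfl
    exact_mod_cast h1
  have hgrow := growth_lower (fun n => ((C n).ncard : ℝ)) (fun n => ((ind C n).ncard : ℝ))
    ha0 (fun n => by positivity) hs1 (fun n => by exact_mod_cast renewal hs n) y hypos hy1.le
    J hJ
  apply root_lower _ (y ^ J) d c (by positivity) hdpos hdc
  intro n
  have h1 := hgrow n
  have h2 : ((C n).ncard : ℝ) = ((C n).ncard : ℝ) * y ^ n * d ^ n := by
    rw [mul_assoc, ← mul_pow, hyd, one_pow, mul_one]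
  rw [h2]
  exact mul_le_mul_of_nonneg_right h1 (by positivity)

end Pool.Agent.Work.MP_65ae80_co
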